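import Pool.Agent.Helper60.CS.Qsl

/-! Exact entropy calculus: change of the base and of the depth for tame functions; rescaled functions. -/

set_option autoImplicit false

namespace Pool.Agent.Helper60.CS

open Finset Filter Topology Pool.Agent.Helper69.RK Pool.Agent.Helper40.EL Pool.Agent.Helper31.EC
  Pool.Agent.Helper31.EC.Sp

noncomputable section

variable {S : Sp} (Z : ∀ k, Setoid (S.F k).Ω) (e : ℝ) (he : 0 < e)

theorem typ_chg {E : ∀ k, (S.F k).Ω → Prop} (hE : Typ (S := S) E) : Typ (S := S.chg Z e he) E := hE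

/-- tame functions in the changed space -/
def trc : TR S →+* TR (S.chg Z e he) where
  toFun f := ⟨f.1, by
    obtain ⟨K, hK, h⟩ := f.2
    exact ⟨K, chg_sub Z e he hK, h⟩⟩
  map_one' := rfl
  map_mul' _ _ := rfl
  map_zero' := rfl
  map_add' _ _ := rfl

theorem trc_dg (f : TR S) (r : ℝ) : TR.dg (trc Z e he f) r = chgL Z e he (TR.dg f (e * r)) := by
  unfold TR.dg
  rw [← VV.chg_dg]
  rfl

open Classical in
/-- the rescaled function `(f - g) / 2 ^ (-r n)` (where it is at most `K`) -/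
def zo (f : TR S) (g : ∀ k, (S.F k).Ω → ℝ) (r : ℝ) (K : ℕ → ℝ) (hK : S.Sub K) : TR (S.chg Z e he) :=
  ⟨fun k ω => if |f.1 k ω - g k ω| ≤ K k * S.dl r k then (f.1 k ω - g k ω) / S.dl r k else 0, by
    refine ⟨K, chg_sub Z e he hK, ?_⟩
    filter_upwards [hK.1] with k hk ω _
    split_ifs with h1
    · rw [abs_div, abs_of_pos (S.dl_pos r k), div_le_iff₀ (S.dl_pos r k)]
      exact h1
    · rw [abs_zero]; exact hk⟩

theorem zo_ev {f : TR S} {g : ∀ k, (S.F k).Ω → ℝ} {r : ℝ} {K : ℕ → ℝ} {hK : S.Sub K} {k : ℕ} {ω : (S.F k).Ω}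
    (h : |f.1 k ω - g k ω| ≤ K k * S.dl r k) : (zo Z e he f g r K hK).1 k ω = (f.1 k ω - g k ω) / S.dl r k := by
  classical
  show (if |f.1 k ω - g k ω| ≤ K k * S.dl r k then (f.1 k ω - g k ω) / S.dl r k else 0) = _
  rw [if_pos h]

/-- the rescaled function is `(f - g) / 2 ^ (-r n)` on a typical event -/
theorem zo_typ {f : TR S} {g : ∀ k, (S.F k).Ω → ℝ} {r : ℝ} {K : ℕ → ℝ} (hK : S.Sub K)
    (h : Typ (S := S) (fun k ω => |f.1 k ω - g k ω| ≤ K k * S.dl r k)) :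
    Typ (S := S) (fun k ω => f.1 k ω = g k ω + S.dl r k * (zo Z e he f g r K hK).1 k ω) := by
  refine h.mono (Eventually.of_forall fun k ω _ h1 => ?_)
  rw [zo_ev Z e he h1, mul_div_cancel₀ _ (S.dl_pos r k).ne']
  ring

/-- DIGITS OF A RESCALED FUNCTION, if `g` is a function of the new base -/
theorem zo_dg {f : TR S} {g : ∀ k, (S.F k).Ω → ℝ} {r : ℝ} {K : ℕ → ℝ} (hK : S.Sub K)
    (h : Typ (S := S) (fun k ω => |f.1 k ω - g k ω| ≤ K k * S.dl r k))
    (hg : ∀ᶠ k in UF, ∀ ω ω', (S.F k).μ ω ≠ 0 → (S.F k).μ ω' ≠ 0 → (Z k ⊓ (S.F k).Z) ω ω' → g k ω = g k ω') (u : ℝ) :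
    TR.dg (zo Z e he f g r K hK) u = chgL Z e he (TR.dg f (r + e * u)) := by
  have e0 : TR.dg (trc Z e he f) (r / e + u) = chgL Z e he (TR.dg f (r + e * u)) := by
    rw [trc_dg]
    congr 2
    field_simp
  rw [← e0]
  have hd : ∀ k, (S.chg Z e he).dl (r / e + u) k = S.dl r k * (S.chg Z e he).dl u k := by
    intro k
    rw [chg_dl, chg_dl, ← dl_add]
    congr 1
    field_simp
  have key : ∀ᶠ k in UF, ∀ ω ω', (S.F k).μ ω ≠ 0 → (S.F k).μ ω' ≠ 0 →
      |f.1 k ω - g k ω| ≤ K k * S.dl r k → |f.1 k ω' - g k ω'| ≤ K k * S.dl r k → (Z k ⊓ (S.F k).Z) ω ω' →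
      |f.1 k ω - f.1 k ω'| = S.dl r k * |(zo Z e he f g r K hK).1 k ω - (zo Z e he f g r K hK).1 k ω'| := by
    filter_upwards [hg] with k hk ω ω' a b c d q
    rw [zo_ev Z e he c, zo_ev Z e he d, hk ω ω' a b q]
    have h2 : (f.1 k ω - g k ω') / S.dl r k - (f.1 k ω' - g k ω') / S.dl r k = (f.1 k ω - f.1 k ω') / S.dl r k := by
      ring
    rw [h2, abs_div, abs_of_pos (S.dl_pos r k), mul_div_cancel₀ _ (S.dl_pos r k).ne']
  apply le_antisymm
  · apply VV.dg_le_dg _ _ _ _ _ (typ_chg Z e he h) (fun _ => 1) ((S.chg Z e he).Sub_const zero_le_one)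
    filter_upwards [key] with k hk ω ω' a b c d q q' i
    have h1 := hk ω ω' a b c d q
    have h2 : |f.1 k ω - f.1 k ω'| ≤ (S.chg Z e he).dl (r / e + u) k := q' 0
    rw [h1, hd] at h2
    rw [one_mul]
    exact le_of_mul_le_mul_left h2 (S.dl_pos r k)
  · apply VV.dg_le_dg _ _ _ _ _ (typ_chg Z e he h) (fun _ => 1) ((S.chg Z e he).Sub_const zero_le_one)
    filter_upwards [key] with k hk ω ω' a b c d q q' i
    have h1 := hk ω ω' a b c d q
    rw [one_mul, hd]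
    show |f.1 k ω - f.1 k ω'| ≤ _
    rw [h1]
    exact mul_le_mul_of_nonneg_left (q' 0) (S.dl_pos r k).le

/-- agreement of rescaled functions: `f` and `f'` agree up to level `r + e u` -/
theorem zo_ag {f f' : TR S} {g g' : ∀ k, (S.F k).Ω → ℝ} {r : ℝ} {K K' : ℕ → ℝ} (hK : S.Sub K) (hK' : S.Sub K')
    (h : Typ (S := S) (fun k ω => |f.1 k ω - g k ω| ≤ K k * S.dl r k))
    (h' : Typ (S := S) (fun k ω => |f'.1 k ω - g' k ω| ≤ K' k * S.dl r k)) {u : ℝ} {L : ℕ → ℝ} (hL : S.Sub L)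
    (hh : Typ (S := S) (fun k ω => |(f.1 k ω - g k ω) - (f'.1 k ω - g' k ω)| ≤ L k * S.dl (r + e * u) k)) :
    TR.Ag u (zo Z e he f g r K hK) (zo Z e he f' g' r K' hK') := by
  refine ⟨_, L, typ_chg Z e he ((h.and h').and hh), chg_sub Z e he hL, Eventually.of_forall fun k ω _ h1 => ?_⟩
  obtain ⟨⟨h1, h2⟩, h3⟩ := h1
  show |(zo Z e he f g r K hK).1 k ω - (zo Z e he f' g' r K' hK').1 k ω| ≤ _
  rw [zo_ev Z e he h1, zo_ev Z e he h2, ← sub_div, abs_div, abs_of_pos (S.dl_pos r k),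
    div_le_iff₀ (S.dl_pos r k), chg_dl]
  rw [dl_add] at h3
  calc _ ≤ _ := h3
    _ = L k * S.dl (e * u) k * S.dl r k := by ring

end

end Pool.Agent.Helper60.CS
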