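import Pool.Agent.Helper60.CS.Rbs

/-! Exact entropy calculus: transfer of finite statements and of robust bounds between the spaces of a sequence and
its diagonal. -/

set_option autoImplicit false

namespace Pool.Agent.Helper60.CS

open Finset Filter Topology Pool.Agent.Helper69.RK Pool.Agent.Helper40.EL Pool.Agent.Helper31.EC
  Pool.Agent.Helper31.EC.Sp

noncomputable section

/-- a finite statement has eventually its eventual truth value -/
theorem los_cond (φ : ℕ → Prop) : ∀ᶠ k in UF, (φ k ↔ ∀ᶠ k' in UF, φ k') := by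
  rcases UF_em φ with h | h
  · filter_upwards [h] with k hk
    exact ⟨fun _ => h, fun _ => hk⟩
  · filter_upwards [h] with k hk
    refine ⟨fun h1 => absurd h1 hk, fun h1 => ?_⟩
    obtain ⟨k', h2, h3⟩ := (h.and h1).exists
    exact absurd h3 h2

/-- LOS: for slow sequences finite statements hold in the diagonal if and only if they hold eventually in the spaces -/
theorem los {φ : ℕ → ℕ → Prop} {J : ℕ → ℕ} (hJ : ∀ᶠ k in UF, (φ (J k) k ↔ ∀ᶠ k' in UF, φ (J k) k')) :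
    (∀ᶠ k in UF, φ (J k) k) ↔ ∀ᶠ k in UF, ∀ᶠ k' in UF, φ (J k) k' := by
  constructor
  · intro h
    filter_upwards [h, hJ] with k h1 h2 using h2.mp h1
  · intro h
    filter_upwards [h, hJ] with k h1 h2 using h2.mpr h1

/-- a statement which holds in the diagonal holds in spaces of the sequence with arbitrarily large index -/
theorem los_back {φ : ℕ → ℕ → Prop} {J : ℕ → ℕ} (ht : Tendsto J UF atTop)
    (hJ : ∀ᶠ k in UF, (φ (J k) k ↔ ∀ᶠ k' in UF, φ (J k) k')) (h : ∀ᶠ k in UF, φ (J k) k) (N : ℕ) :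
    ∃ j, N ≤ j ∧ ∀ᶠ k' in UF, φ j k' := by
  obtain ⟨k, h1, h2⟩ := (((los hJ).mp h).and (ht.eventually (eventually_ge_atTop N))).exists
  exact ⟨J k, h2, h1⟩

/-- a statement which holds in the spaces with large index holds in the diagonal -/
theorem los_fwd {φ : ℕ → ℕ → Prop} {J : ℕ → ℕ} (ht : Tendsto J UF atTop)
    (hJ : ∀ᶠ k in UF, (φ (J k) k ↔ ∀ᶠ k' in UF, φ (J k) k')) (h : ∀ᶠ j in atTop, ∀ᶠ k' in UF, φ j k') :
    ∀ᶠ k in UF, φ (J k) k := (los hJ).mpr (ht.eventually h)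

/-- slow sequences for the finite statements of a countable list -/
theorem exists_los {κ ι γ δ : Type} [Countable κ] [Countable ι] [Countable γ] [Countable δ] (D : DI κ ι)
    (E : γ → ℕ → ℕ → Prop) (hE : ∀ i j, ∀ᶠ k in UF, E i j k) (φ : δ → ℕ → ℕ → Prop) :
    ∃ s : Slow D, (∀ i, ∀ᶠ k in UF, E i (s.J k) k) ∧
      ∀ i, ∀ᶠ k in UF, (φ i (s.J k) k ↔ ∀ᶠ k' in UF, φ i (s.J k) k') := by
  obtain ⟨s, hs⟩ := exists_Slow D (fun c : γ ⊕ δ => Sum.elim E
    (fun i j k => (φ i j k ↔ ∀ᶠ k' in UF, φ i j k')) c)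
    (by rintro (c | i) j
        · exact hE c j
        · exact los_cond _)
  exact ⟨s, fun i => hs (Sum.inl i), fun i => hs (Sum.inr i)⟩

namespace Slow

variable {κ ι : Type} {D : DI κ ι} (s : Slow D)

/-- the partition of a finite join of generators -/
def gp (D : DI κ ι) (u : Finset (ι ⊕ (κ × ℚ))) (j k : ℕ) : Setoid ((D.S j).F k).Ω := u.inf fun g => (D.gen g j).1 k

/-- finite form of a robust upper bound, as a condition on slow sequences -/
def RBc (D : DI κ ι) (u v : Finset (ι ⊕ (κ × ℚ))) (η : ℕ → ℝ) (i j k : ℕ) : Prop :=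
  RB ((D.S j).F k) (1 / ((i : ℝ) + 1)) (η j + 1 / ((j : ℝ) + 1)) (gp D u j k) (gp D v j k)

/-- finite form of a robust lower bound, as a condition on slow sequences -/
def RLc (D : DI κ ι) (u v : Finset (ι ⊕ (κ × ℚ))) (η : ℕ → ℝ) (i j k : ℕ) : Prop :=
  RL ((D.S j).F k) (1 / ((i : ℝ) + 1)) (η j - 1 / ((j : ℝ) + 1)) (gp D u j k) (gp D v j k)

/-- `h(u | v) ≤ b` on all events of all extensions -/
def RobLe {S : Sp} (x y : S.L) (b : ℝ) : Prop :=
  ∀ (T : Sp) (p : Pj T S) (E : ∀ k, (T.F k).Ω → Prop) (hE : 0 < ul (T.pr E)),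
    h (restL E hE (p.map x)) (restL E hE (p.map y)) ≤ b

/-- `b ≤ h(u | v)` on all events of all extensions -/
def RobGe {S : Sp} (x y : S.L) (b : ℝ) : Prop :=
  ∀ (T : Sp) (p : Pj T S) (E : ∀ k, (T.F k).Ω → Prop) (hE : 0 < ul (T.pr E)),
    b ≤ h (restL E hE (p.map x)) (restL E hE (p.map y))

theorem RBc_ev {u v : Finset (ι ⊕ (κ × ℚ))} {η : ℕ → ℝ} {j : ℕ}
    (h : RobLe (u.sup fun g => cl (D.gen g j)) (v.sup fun g => cl (D.gen g j)) (η j)) (i : ℕ) :
    ∀ᶠ k in UF, RBc D u v η i j k := by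
  have h1 := h
  rw [← cl_fsup, ← cl_fsup] at h1
  exact (rob_le_iff _ _ _).mp h1 _ (by positivity) _ (by positivity)

theorem RLc_ev {u v : Finset (ι ⊕ (κ × ℚ))} {η : ℕ → ℝ} {j : ℕ}
    (h : RobGe (u.sup fun g => cl (D.gen g j)) (v.sup fun g => cl (D.gen g j)) (η j)) (i : ℕ) :
    ∀ᶠ k in UF, RLc D u v η i j k := by
  have h1 := h
  rw [← cl_fsup, ← cl_fsup] at h1
  exact (rob_ge_iff _ _ _).mp h1 _ (by positivity) _ (by positivity)

/-- ROBUST UPPER BOUNDS pass to the diagonal -/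
theorem robLe {u v : Finset (ι ⊕ (κ × ℚ))} {η : ℕ → ℝ} {b : ℝ} (hη : Tendsto η atTop (𝓝 b))
    (hc : ∀ i, ∀ᶠ k in UF, RBc D u v η i (s.J k) k) :
    RobLe (u.sup fun g => cl (s.gen g)) (v.sup fun g => cl (s.gen g)) b := by
  unfold RobLe
  rw [← cl_fsup, ← cl_fsup, rob_le_iff]
  intro δ hδ ε hε
  obtain ⟨i, hi⟩ := exists_nat_one_div_lt hδ
  have h1 : Tendsto (fun k => η (s.J k) + 1 / ((s.J k : ℝ) + 1)) UF (𝓝 (b + 0)) :=
    (hη.comp s.tend).add (one_div_J s.tend)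
  rw [add_zero] at h1
  have h2 : b < b + ε := by linarith
  filter_upwards [h1.eventually (gt_mem_nhds h2), hc i] with k hk hk'
  exact hk'.mono hi.le hk.le

/-- ROBUST LOWER BOUNDS pass to the diagonal -/
theorem robGe {u v : Finset (ι ⊕ (κ × ℚ))} {η : ℕ → ℝ} {b : ℝ} (hη : Tendsto η atTop (𝓝 b))
    (hc : ∀ i, ∀ᶠ k in UF, RLc D u v η i (s.J k) k) :
    RobGe (u.sup fun g => cl (s.gen g)) (v.sup fun g => cl (s.gen g)) b := by
  unfold RobGe
  rw [← cl_fsup, ← cl_fsup, rob_ge_iff]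
  intro δ hδ ε hε
  obtain ⟨i, hi⟩ := exists_nat_one_div_lt hδ
  have h1 : Tendsto (fun k => η (s.J k) - 1 / ((s.J k : ℝ) + 1)) UF (𝓝 (b - 0)) :=
    (hη.comp s.tend).sub (one_div_J s.tend)
  rw [sub_zero] at h1
  have h2 : b - ε < b := by linarith
  filter_upwards [h1.eventually (lt_mem_nhds h2), hc i] with k hk hk'
  exact hk'.mono hi.le hk.le

end Slow

end

end Pool.Agent.Helper60.CS
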