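import Pool.Agent.Helper60.CS.FlatF
import Pool.Agent.Helper99.LF.Tr

/-! The forward diagonal of flat corners in the form of the finite agreement theorem, and the approximate finite
agreement theorem. -/

set_option autoImplicit false

namespace Pool.Agent.Helper60.CS

open Finset Filter Topology Pool.Agent.Helper69.RK Pool.Agent.Helper40.EL Pool.Agent.Helper31.EC
  Pool.Agent.Helper31.EC.Sp QS
open Pool.Agent.Helper40.NSK (FC CorH UnE Big)
open Pool.Agent.Helper99.CC (FTC)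

noncomputable section

variable {d k N : ℕ}

theorem fc_eq {S : Sp} (tr : FTC S d k) :
    Pool.Agent.Helper99.LF.fc tr = fcOf fun b => QS.mk (fiOf tr.t tr.a tr.x tr.c b) := rfl

/-- **FORWARD DIAGONAL of flat corners** -/
theorem st_fwd (d k N : ℕ) : Pool.Agent.Helper99.LF.ST_FWD d k N := by
  intro ρ S tr e he H Φ hΦ
  obtain ⟨X, hX⟩ : ∃ X : SF d k N, X = sfOf S (fun j => (tr j).t) (fun j => (tr j).a) (fun j => (tr j).x)
    (fun j => (tr j).c) ρ e he H := ⟨_, rfl⟩
  obtain ⟨s, h1, h2⟩ := X.fwd (fun (_ : Unit) => Φ) fun _ => hΦ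
  subst hX
  refine ⟨s.J, s.sp.lim, ⟨s.fn FI.t, fun i => s.fn (FI.a i), fun i => s.fn (FI.x i), fun i => s.fn (FI.c i)⟩,
    fun _ => rfl, fun _ _ => rfl, fun _ _ => rfl, fun _ _ => rfl, h1, h2 ()⟩

/-- **FINITE AGREEMENT for approximate corners, curved lines** -/
theorem st_lfe_K (d k N : ℕ) (hN : d ≤ N) : Pool.Agent.Helper99.LF.ST_LFE d k (2 * k * (d + 1) + k) N :=
  Pool.Agent.Helper99.LF.lfe_of d k _ N (st_fwd d k N) (Pool.Agent.Helper99.LF.st_lf_K d k N hN)

/-- **FINITE AGREEMENT for approximate corners, straight lines** -/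
theorem st_lfe_one (d N : ℕ) (hN : d ≤ N) : Pool.Agent.Helper99.LF.ST_LFE d 1 (d + 2) N :=
  Pool.Agent.Helper99.LF.lfe_of d 1 _ N (st_fwd d 1 N) (Pool.Agent.Helper99.LF.st_lf_one d N hN)

end

end Pool.Agent.Helper60.CS
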