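import Pool.Agent.Helper60.CS.Sml
import Pool.Agent.Helper31.EC.Sep
import Pool.Agent.Helper3.LF.Mono

/-! Exact entropy calculus: labels with polynomial sheets, approximate form, and their finite form. -/

set_option autoImplicit false

namespace Pool.Agent.Helper60.CS

open Finset Filter Topology Pool.Agent.Helper69.RK Pool.Agent.Helper40.EL Pool.Agent.Helper31.EC
  Pool.Agent.Helper31.EC.Sp QS
open Pool.Agent.Helper3.LF (Mon)

noncomputable section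

/-- there is a label `V`, known to `A` and blind for `Q` up to `ε`, with a polynomial sheet `z = f(q)` of degree at most
`K`; coefficients up to `2 ^ (δ n)`, precision `v - δ`, outside of an event of probability `ε` -/
def ShL {S : Sp} {r : ℕ} (q : Fin r → QS S) (z : QS S) (A Q : S.L) (K : ℕ) (v δ ε : ℝ) : Prop :=
  ∃ (W : Sp) (p : Pj W S) (V : W.L) (f : MvPolynomial (Fin r) (QS W)), f ∈ PK V ∧ f.totalDegree ≤ K ∧
    h V (p.map A) ≤ ε ∧ I V (p.map Q) ⊥ ≤ ε ∧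
    Sml (sc W δ * p.qs z - MvPolynomial.eval (fun i => p.qs (q i)) f) v ε

/-- finite form of `ShL` -/
def ShF (F : FSp) {r : ℕ} (q : Fin r → F.Ω → ℝ) (z : F.Ω → ℝ) (VA VQ : Setoid F.Ω) (K : ℕ) (v δ ε : ℝ) : Prop :=
  ∃ (G : FSp) (p : FPj G F) (g : G.Ω → Mon r K → ℤ), G.n = F.n ∧
    (∀ ω, G.μ ω ≠ 0 → ∀ m, |(g ω m : ℝ)| * 2 ^ (-((1 + δ / 2) * F.n)) ≤ 2) ∧
    G.e (Setoid.ker g) (Setoid.comap p.π VA ⊓ G.Z) / G.n ≤ ε ∧
    G.e (Setoid.ker g) (⊤ ⊓ G.Z) / G.n - G.e (Setoid.ker g) (Setoid.comap p.π VQ ⊓ G.Z) / G.n ≤ ε ∧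
    G.pb (fun ω => ¬ |2 ^ (-(δ * F.n)) * z (p.π ω) - ∑ m : Mon r K, (g ω m : ℝ) * 2 ^ (-((1 + δ / 2) * F.n)) *
      ∏ i, q i (p.π ω) ^ (m.1 i : ℕ)| ≤ 2 ^ (-(v * F.n))) ≤ ε

/-- evaluation of a polynomial of bounded degree -/
theorem eval_mon {A : Type*} [CommRing A] {N K : ℕ} (f : MvPolynomial (Fin N) A) (hf : f.totalDegree ≤ K)
    (x : Fin N → A) : MvPolynomial.eval x f = ∑ a : Mon N K, f.coeff a.ex * ∏ i, x i ^ (a.1 i : ℕ) := by
  classical
  have hinj : Function.Injective (Mon.ex : Mon N K → Fin N →₀ ℕ) := by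
    intro a b h
    apply Subtype.ext
    funext i
    apply Fin.ext
    exact DFunLike.congr_fun h i
  rw [MvPolynomial.eval_eq']
  have h1 : ∑ a : Mon N K, f.coeff a.ex * ∏ i, x i ^ (a.1 i : ℕ) =
      ∑ m ∈ Finset.univ.image (Mon.ex : Mon N K → Fin N →₀ ℕ), f.coeff m * ∏ i, x i ^ m i := by
    rw [Finset.sum_image fun a _ b _ h => hinj h]
    rfl
  rw [h1]
  apply Finset.sum_subset
  · intro m hm
    rw [Finset.mem_image]
    have h2 : (m.sum fun _ e => e) ≤ K := (MvPolynomial.le_totalDegree hm).trans hf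
    rw [Finsupp.sum_fintype _ _ (fun _ => rfl)] at h2
    have h3 : ∀ i, m i < K + 1 := fun i => Nat.lt_succ_of_le
      ((Finset.single_le_sum (f := fun i => m i) (fun j _ => Nat.zero_le _) (Finset.mem_univ i)).trans h2)
    refine ⟨⟨fun i => ⟨m i, h3 i⟩, h2⟩, Finset.mem_univ _, ?_⟩
    ext i
    rfl
  · intro m _ hm
    rw [MvPolynomial.notMem_support_iff.mp hm, zero_mul]

theorem eval_sum_mon {A : Type*} [CommRing A] {N K : ℕ} (c : Mon N K → A) (x : Fin N → A) :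
    MvPolynomial.eval x (∑ m : Mon N K, MvPolynomial.monomial m.ex (c m)) =
      ∑ m : Mon N K, c m * ∏ i, x i ^ (m.1 i : ℕ) := by
  rw [map_sum]
  apply Finset.sum_congr rfl
  intro m _
  rw [MvPolynomial.eval_monomial, Finsupp.prod_fintype _ _ (fun _ => pow_zero _)]
  rfl

theorem degree_sum_mon {A : Type*} [CommRing A] {N K : ℕ} (c : Mon N K → A) :
    (∑ m : Mon N K, MvPolynomial.monomial m.ex (c m)).totalDegree ≤ K := by
  refine MvPolynomial.totalDegree_finsetSum_le fun a _ => ?_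
  exact (MvPolynomial.totalDegree_monomial_le _ _).trans a.ex_sum

/-- the residual, as a tame function -/
def rsd {S W : Sp} (p : Pj W S) {r K : ℕ} (q : Fin r → TR S) (z : TR S) (δ : ℝ) (c : Mon r K → TR W) : TR W :=
  sct W δ * p.tr z - ∑ m : Mon r K, c m * ∏ i, p.tr (q i) ^ (m.1 i : ℕ)

theorem rsd_mk {S W : Sp} (p : Pj W S) {r K : ℕ} (q : Fin r → TR S) (z : TR S) (δ : ℝ) (c : Mon r K → TR W) :
    QS.mk (rsd p q z δ c) = sc W δ * p.qs (QS.mk z) - ∑ m : Mon r K, QS.mk (c m) *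
      ∏ i, p.qs (QS.mk (q i)) ^ (m.1 i : ℕ) := by
  unfold rsd
  rw [map_sub, map_mul, map_sum]
  congr 1
  apply Finset.sum_congr rfl
  intro m _
  rw [map_mul, map_prod]
  congr 1

theorem rsd_ev {S W : Sp} (p : Pj W S) {r K : ℕ} (q : Fin r → TR S) (z : TR S) (δ : ℝ) (c : Mon r K → TR W) (k : ℕ)
    (ω : (W.F k).Ω) : TR.ev (rsd p q z δ c) k ω = W.dl (max δ 0) k * TR.ev z k (p.π k ω) -
      ∑ m : Mon r K, TR.ev (c m) k ω * ∏ i, TR.ev (q i) k (p.π k ω) ^ (m.1 i : ℕ) := by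
  rw [← TR.evh_apply]
  unfold rsd
  rw [map_sub, map_mul, map_sum]
  congr 1
  apply Finset.sum_congr rfl
  intro m _
  rw [map_mul, map_prod]
  congr 1

/-- a label with a sheet from the finite form -/
theorem shl_of_fin {S : Sp} {r K : ℕ} (q : Fin r → TR S) (z : TR S) (A Q : S.Inf) {v δ ε : ℝ} (hδ : 0 ≤ δ)
    (hv : v ≤ 1) (h : ∀ᶠ k in UF, ShF (S.F k) (fun i => TR.ev (q i) k) (TR.ev z k) (A.1 k) (Q.1 k) K v δ ε) :
    ShL (fun i => QS.mk (q i)) (QS.mk z) (cl A) (cl Q) K v δ ε := by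
  classical
  have hex : ∀ k, ∃ (G : FSp) (p : FPj G (S.F k)) (g : G.Ω → Mon r K → ℤ), G.n = (S.F k).n ∧
      (ShF (S.F k) (fun i => TR.ev (q i) k) (TR.ev z k) (A.1 k) (Q.1 k) K v δ ε →
      ((∀ ω, G.μ ω ≠ 0 → ∀ m, |(g ω m : ℝ)| * 2 ^ (-((1 + δ / 2) * (S.F k).n)) ≤ 2) ∧
      G.e (Setoid.ker g) (Setoid.comap p.π (A.1 k) ⊓ G.Z) / G.n ≤ ε ∧
      G.e (Setoid.ker g) (⊤ ⊓ G.Z) / G.n - G.e (Setoid.ker g) (Setoid.comap p.π (Q.1 k) ⊓ G.Z) / G.n ≤ ε ∧
      G.pb (fun ω => ¬ |2 ^ (-(δ * (S.F k).n)) * TR.ev z k (p.π ω) - ∑ m : Mon r K, (g ω m : ℝ) *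
        2 ^ (-((1 + δ / 2) * (S.F k).n)) * ∏ i, TR.ev (q i) k (p.π ω) ^ (m.1 i : ℕ)| ≤
          2 ^ (-(v * (S.F k).n))) ≤ ε)) := by
    intro k
    by_cases hk : ShF (S.F k) (fun i => TR.ev (q i) k) (TR.ev z k) (A.1 k) (Q.1 k) K v δ ε
    · obtain ⟨G, p, g, h1, h2, h3, h4, h5⟩ := hk
      exact ⟨G, p, g, h1, fun _ => ⟨h2, h3, h4, h5⟩⟩
    · exact ⟨S.F k, ⟨fun ω => ω, (Pj.id S).law k, (Pj.id S).hZ k⟩, fun _ _ => 0, rfl, fun h => absurd h hk⟩
  choose G p g hn hh using hex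
  obtain ⟨P, hP⟩ : ∃ P : Pj ⟨G, by simp only [hn]; exact S.lim⟩ S, P =
      ⟨fun k => (p k).π, fun k => (p k).law, fun k => (p k).hZ, hn⟩ := ⟨_, rfl⟩
  have hdl : ∀ (s : ℝ) (k : ℕ), (⟨G, by simp only [hn]; exact S.lim⟩ : Sp).dl s k = 2 ^ (-(s * (S.F k).n)) := by
    intro s k
    show (2 : ℝ) ^ (-(s * (G k).n)) = _
    rw [hn]
  have hev : ∀ᶠ k in UF, ((∀ ω, (G k).μ ω ≠ 0 → ∀ m, |(g k ω m : ℝ)| * 2 ^ (-((1 + δ / 2) * (S.F k).n)) ≤ 2) ∧
      (G k).e (Setoid.ker (g k)) (Setoid.comap (p k).π (A.1 k) ⊓ (G k).Z) / (G k).n ≤ ε ∧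
      (G k).e (Setoid.ker (g k)) (⊤ ⊓ (G k).Z) / (G k).n -
        (G k).e (Setoid.ker (g k)) (Setoid.comap (p k).π (Q.1 k) ⊓ (G k).Z) / (G k).n ≤ ε ∧
      (G k).pb (fun ω => ¬ |2 ^ (-(δ * (S.F k).n)) * TR.ev z k ((p k).π ω) - ∑ m : Mon r K, (g k ω m : ℝ) *
        2 ^ (-((1 + δ / 2) * (S.F k).n)) * ∏ i, TR.ev (q i) k ((p k).π ω) ^ (m.1 i : ℕ)| ≤
          2 ^ (-(v * (S.F k).n))) ≤ ε) := h.mono fun k hk => hh k hk
  -- coefficients
  obtain ⟨c, hc⟩ : ∃ c : Mon r K → TR ⟨G, by simp only [hn]; exact S.lim⟩,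
      ∀ m k ω, TR.ev (c m) k ω = (g k ω m : ℝ) * 2 ^ (-((1 + δ / 2) * (S.F k).n)) := by
    refine ⟨fun m => ⟨fun k ω => (g k ω m : ℝ) * 2 ^ (-((1 + δ / 2) * (S.F k).n)), fun _ => 2,
      Sp.Sub_const _ (by norm_num), ?_⟩, fun _ _ _ => rfl⟩
    filter_upwards [hev] with k hk ω hω
    rw [abs_mul, abs_of_pos (show (0 : ℝ) < 2 ^ (-((1 + δ / 2) * (S.F k).n)) by positivity)]
    exact hk.1 ω hω m
  obtain ⟨e⟩ : Nonempty (Fin (Fintype.card (Mon r K)) ≃ Mon r K) := ⟨(Fintype.equivFin _).symm⟩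
  obtain ⟨y, hy⟩ : ∃ y, y = TR.vec (fun i => c (e i)) := ⟨_, rfl⟩
  have hker : ∀ k, Setoid.ker (y.cellv (1 + δ / 2) k) = Setoid.ker (g k) := by
    intro k
    have h1 : ∀ ω i, y.cellv (1 + δ / 2) k ω i = g k ω (e i) := by
      intro ω i
      show ⌊y.v k ω i / _⌋ = _
      have h2 : y.v k ω i = (g k ω (e i) : ℝ) * 2 ^ (-((1 + δ / 2) * (S.F k).n)) := by
        rw [hy]
        exact hc (e i) k ω
      rw [h2, hdl, mul_div_cancel_right₀ _ (by positivity), Int.floor_intCast]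
    ext ω ω'
    constructor
    · intro h2
      have h2' : y.cellv (1 + δ / 2) k ω = y.cellv (1 + δ / 2) k ω' := h2
      show g k ω = g k ω'
      funext m
      have h3 := congrFun h2' (e.symm m)
      rw [h1, h1, e.apply_symm_apply] at h3
      exact h3
    · intro h2
      have h2' : g k ω = g k ω' := h2
      show y.cellv (1 + δ / 2) k ω = y.cellv (1 + δ / 2) k ω'
      funext i
      rw [h1, h1, h2']
  have hV : y.dg (1 + δ / 2) = cl (y.bdd (1 + δ / 2)).toInf := io_eq _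
  have hVk : ∀ k, (y.bdd (1 + δ / 2)).toInf.1 k = Setoid.ker (g k) := hker
  refine ⟨_, P, y.dg (1 + δ / 2), ∑ m : Mon r K, MvPolynomial.monomial m.ex (QS.mk (c m)), ?_, degree_sum_mon _,
    ?_, ?_, ?_⟩
  · apply (PK _).sum_mem
    intro m _
    apply monomial_mem
    rw [QS.dg_mk _ le_rfl]
    have h1 := TR.cor_dg_le y (e.symm m) (1 + δ / 2)
    have h2 : TR.cor y (e.symm m) = c m := by
      rw [hy]
      show c (e (e.symm m)) = c m
      rw [e.apply_symm_apply]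
    rw [h2] at h1
    exact (TR.dg_mono _ (by linarith)).trans h1
  · rw [hV, P.map_cl, h_cl]
    apply ul_le_const (UB_rt _ _)
    filter_upwards [hev] with k hk
    have h1 := hk.2.1
    rw [← hVk] at h1
    rw [hP]
    exact h1
  · rw [hV, P.map_cl, I_eq, sup_bot_eq, h_bot, H_cl, h_cl, ← ul_sub (UB_rt _ _) (UB_rt _ _)]
    apply ul_le_const ((UB_rt _ _).sub (UB_rt _ _))
    filter_upwards [hev] with k hk
    have h1 := hk.2.2.1
    rw [← hVk] at h1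
    rw [hP]
    exact h1
  · rw [eval_sum_mon, ← rsd_mk]
    apply sml_mk hv
    intro r' hr'
    apply ul_le_const (UB_pr _)
    filter_upwards [hev] with k hk
    refine le_trans ?_ hk.2.2.2
    apply FSp.pb_mono
    intro ω _ h1 h2
    beta_reduce at h1
    rw [rsd_ev] at h1
    simp only [hc] at h1
    rw [hdl, hdl, max_eq_left hδ] at h1
    rw [hP] at h1
    have h3 : (2 : ℝ) ^ (-(v * (S.F k).n)) ≤ 2 ^ (-(r' * (S.F k).n)) := by
      apply Real.rpow_le_rpow_of_exponent_le (by norm_num)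
      have := (S.F k).pos
      nlinarith
    exact absurd (h1.trans_le (h2.trans h3)) (lt_irrefl _)

theorem Sub_sum {S : Sp} {M : Type} [Fintype M] {K : M → ℕ → ℝ} (h : ∀ a, S.Sub (K a)) :
    S.Sub (fun k => ∑ a, K a k) := by
  classical
  have key : ∀ s : Finset M, S.Sub (fun k => ∑ a ∈ s, K a k) := by
    intro s
    induction s using Finset.induction_on with
    | empty => simpa using S.Sub_const le_rfl
    | insert a s ha ih =>
      have h1 := (h a).add ih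
      simpa [Finset.sum_insert ha] using h1
  exact key Finset.univ

/-- the finite form from an exact label -/
theorem fin_of_shl {S : Sp} {r K : ℕ} (q : Fin r → TR S) (z : TR S) (A Q : S.Inf) {v δ ε : ℝ} (hδ : 0 < δ)
    (hε : 0 < ε) (hv : v ≤ 1) (h : ShL (fun i => QS.mk (q i)) (QS.mk z) (cl A) (cl Q) K v 0 0) :
    ∀ᶠ k in UF, ShF (S.F k) (fun i => TR.ev (q i) k) (TR.ev z k) (A.1 k) (Q.1 k) K v δ ε := by
  classical
  obtain ⟨W, P, V, f, hf, hdeg, hA, hQ, hS⟩ := h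
  obtain ⟨c, hc⟩ : ∃ c : Mon r K → TR W, ∀ m, QS.mk (c m) = f.coeff m.ex := ⟨fun m => QS.rep (f.coeff m.ex),
    fun m => QS.mk_rep _⟩
  obtain ⟨e⟩ : Nonempty (Fin (Fintype.card (Mon r K)) ≃ Mon r K) := ⟨(Fintype.equivFin _).symm⟩
  obtain ⟨y, hy⟩ : ∃ y, y = TR.vec (fun i => c (e i)) := ⟨_, rfl⟩
  have hyV : y.dg (1 - δ / 2) ≤ V := by
    refine (y.dg_mono (show 1 - δ / 2 ≤ 1 by linarith)).trans ?_
    rw [hy]
    apply TR.vec_dg_le
    intro i
    have h1 := hf (e i).ex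
    rw [← hc, QS.dg_mk _ le_rfl] at h1
    exact h1
  have hVe : y.dg (1 - δ / 2) = cl (y.bdd (1 - δ / 2)).toInf := io_eq _
  rw [hVe] at hyV
  -- the integer vector
  obtain ⟨g, hg⟩ : ∃ g : ∀ k, (W.F k).Ω → Mon r K → ℤ, ∀ k ω m, g k ω m = ⌊TR.ev (c m) k ω / W.dl (1 - δ / 2) k⌋ :=
    ⟨_, fun _ _ _ => rfl⟩
  have hker : ∀ k, (y.bdd (1 - δ / 2)).toInf.1 k = Setoid.ker (g k) := by
    intro k
    have h0 : (y.bdd (1 - δ / 2)).toInf.1 k = Setoid.ker (y.cellv (1 - δ / 2) k) := rfl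
    rw [h0]
    have h1 : ∀ ω i, y.cellv (1 - δ / 2) k ω i = g k ω (e i) := by
      intro ω i
      rw [hg, hy]
      rfl
    ext ω ω'
    constructor
    · intro h2
      have h2' : y.cellv (1 - δ / 2) k ω = y.cellv (1 - δ / 2) k ω' := h2
      show g k ω = g k ω'
      funext m
      have h3 := congrFun h2' (e.symm m)
      rw [h1, h1, e.apply_symm_apply] at h3
      exact h3
    · intro h2
      have h2' : g k ω = g k ω' := h2
      show y.cellv (1 - δ / 2) k ω = y.cellv (1 - δ / 2) k ω'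
      funext i
      rw [h1, h1, h2']
  -- rates
  have r1 : ∀ᶠ k in UF, W.rt (y.bdd (1 - δ / 2)).toInf.1 (P.mapI A).1 k < ε := by
    apply eventually_lt_of_ul_lt (UB_rt _ _)
    rw [← h_cl, ← P.map_cl]
    exact ((h_mono hyV).trans hA).trans_lt hε
  have r2 : ∀ᶠ k in UF, W.rt (y.bdd (1 - δ / 2)).toInf.1 W.tr k -
      W.rt (y.bdd (1 - δ / 2)).toInf.1 (P.mapI Q).1 k < ε := by
    apply eventually_lt_of_ul_lt ((UB_rt _ _).sub (UB_rt _ _))
    rw [ul_sub (UB_rt _ _) (UB_rt _ _), ← h_cl, ← H_cl, ← P.map_cl]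
    have h1 : I (cl (y.bdd (1 - δ / 2)).toInf) (P.map (cl Q)) ⊥ ≤ I V (P.map (cl Q)) ⊥ := by
      exact I_mono_left (hyV.trans le_sup_left)
    rw [I_eq, sup_bot_eq, h_bot] at h1
    linarith
  -- closeness
  have r3 : ∀ᶠ k in UF, (W.F k).pb (fun ω => W.dl (v - δ / 4) k < |TR.ev (rsd P q z 0 c) k ω|) < ε := by
    have h1 : Sml (QS.mk (rsd P q z 0 c)) v 0 := by
      rw [rsd_mk]
      rw [eval_mon f hdeg] at hS
      simp only [hc]
      exact hS
    have h2 := h1.of_mk hv (show v - δ / 4 < v by linarith)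
    have h3 := eventually_lt_of_ul_lt (UB_pr _) (h2.trans_lt hε)
    exact h3
  obtain ⟨Kc, hKc, hKc'⟩ : ∃ Kc : ℕ → ℝ, W.Sub Kc ∧ ∀ᶠ k in UF, ∀ ω, (W.F k).μ ω ≠ 0 → ∀ m,
      |TR.ev (c m) k ω| ≤ Kc k := by
    choose B hB hB' using fun m => (c m).2
    refine ⟨fun k => ∑ m, B m k, Sub_sum hB, ?_⟩
    have h1 : ∀ᶠ k in UF, ∀ m ∈ (Finset.univ : Finset (Mon r K)), 0 ≤ B m k ∧
        ∀ ω, (W.F k).μ ω ≠ 0 → |(c m).1 k ω| ≤ B m k := by
      rw [Filter.eventually_all_finset]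
      intro m _
      filter_upwards [hB' m, (hB m).1] with k a b using ⟨b, a⟩
    filter_upwards [h1] with k hk ω hω m
    refine ((hk m (Finset.mem_univ m)).2 ω hω).trans ?_
    exact Finset.single_le_sum (f := fun m => B m k) (fun m _ => (hk m (Finset.mem_univ m)).1) (Finset.mem_univ m)
  obtain ⟨Kq, hKq, hKq'⟩ : ∃ Kq : ℕ → ℝ, W.Sub Kq ∧ ∀ᶠ k in UF, ∀ ω, (W.F k).μ ω ≠ 0 →
      ∑ m : Mon r K, |∏ i, TR.ev (q i) k (P.π k ω) ^ (m.1 i : ℕ)| ≤ Kq k := by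
    choose B hB hB' using fun m : Mon r K => (∏ i, P.tr (q i) ^ (m.1 i : ℕ)).2
    refine ⟨fun k => ∑ m, B m k, Sub_sum hB, ?_⟩
    have h1 : ∀ᶠ k in UF, ∀ m ∈ (Finset.univ : Finset (Mon r K)),
        ∀ ω, (W.F k).μ ω ≠ 0 → |(∏ i, P.tr (q i) ^ (m.1 i : ℕ)).1 k ω| ≤ B m k := by
      rw [Filter.eventually_all_finset]
      intro m _
      exact hB' m
    filter_upwards [h1] with k hk ω hω
    apply Finset.sum_le_sum
    intro m _
    have h2 := hk m (Finset.mem_univ m) ω hω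
    have h3 : (∏ i, P.tr (q i) ^ (m.1 i : ℕ)).1 k ω = ∏ i, TR.ev (q i) k (P.π k ω) ^ (m.1 i : ℕ) := by
      have h4 : (∏ i, P.tr (q i) ^ (m.1 i : ℕ)).1 k ω = TR.evh k ω (∏ i, P.tr (q i) ^ (m.1 i : ℕ)) := rfl
      rw [h4, map_prod]
      apply Finset.prod_congr rfl
      intro i _
      rw [map_pow]
      rfl
    rwa [h3] at h2
  have hdl : ∀ (s : ℝ) (k : ℕ), W.dl s k = 2 ^ (-(s * (S.F k).n)) := by
    intro s k
    show (2 : ℝ) ^ (-(s * (W.F k).n)) = _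
    rw [P.hn]
  filter_upwards [r1, r2, r3, hKc', hKq', hKc.eventually_le hδ, hKq.eventually_le (show (0 : ℝ) < δ / 4 by linarith),
    hKc.1, hKq.1, (Sp.Sub_const W (show (0 : ℝ) ≤ 2 by norm_num)).eventually_le (show (0 : ℝ) < δ / 4 by linarith)]
    with k k1 k2 k3 k4 k5 k6 k7 k8 k9 k10
  refine ⟨W.F k, P.fp k, g k, P.hn k, ?_, ?_, ?_, ?_⟩
  · intro ω hω m
    rw [← hdl]
    have hd := W.dl_pos (1 - δ / 2) k
    have h1 : |(g k ω m : ℝ)| ≤ |TR.ev (c m) k ω| / W.dl (1 - δ / 2) k + 1 := by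
      rw [hg]
      have h2 := Int.floor_le (TR.ev (c m) k ω / W.dl (1 - δ / 2) k)
      have h3 := Int.lt_floor_add_one (TR.ev (c m) k ω / W.dl (1 - δ / 2) k)
      have h4 : |TR.ev (c m) k ω / W.dl (1 - δ / 2) k| = |TR.ev (c m) k ω| / W.dl (1 - δ / 2) k := by
        rw [abs_div, abs_of_pos hd]
      have h5 := abs_le.mp (le_of_eq h4)
      rw [abs_le]
      constructor <;> linarith [h5.1, h5.2]
    have h2 : W.dl (1 + δ / 2) k = W.dl (1 - δ / 2) k * W.dl δ k := by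
      rw [← W.dl_add]
      congr 1
      ring
    have h3 : W.dl (1 + δ / 2) k ≤ 1 := by
      have := W.dl_anti (show (0 : ℝ) ≤ 1 + δ / 2 by linarith) k
      rwa [W.dl_zero] at this
    have h4 : |TR.ev (c m) k ω| * W.dl δ k ≤ 1 := by
      have h5 : |TR.ev (c m) k ω| ≤ 2 ^ (δ * (W.F k).n) := by linarith [k4 ω hω m]
      calc |TR.ev (c m) k ω| * W.dl δ k ≤ 2 ^ (δ * (W.F k).n) * W.dl δ k :=
            mul_le_mul_of_nonneg_right h5 (W.dl_pos _ _).le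
        _ = 1 := by
            unfold Sp.dl
            rw [← Real.rpow_add (by norm_num : (0 : ℝ) < 2), add_neg_cancel, Real.rpow_zero]
    calc |(g k ω m : ℝ)| * W.dl (1 + δ / 2) k ≤ (|TR.ev (c m) k ω| / W.dl (1 - δ / 2) k + 1) * W.dl (1 + δ / 2) k :=
          mul_le_mul_of_nonneg_right h1 (W.dl_pos _ _).le
      _ = |TR.ev (c m) k ω| * W.dl δ k + W.dl (1 + δ / 2) k := by
          rw [add_mul, one_mul]
          congr 1
          rw [h2, ← mul_assoc, div_mul_cancel₀ _ hd.ne']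
      _ ≤ 2 := by linarith
  · rw [← hker]
    exact k1.le
  · rw [← hker]
    exact k2.le
  · refine le_trans ?_ k3.le
    apply FSp.pb_mono
    intro ω hω h1
    by_contra h2
    apply h1
    rw [not_lt, rsd_ev] at h2
    simp only [max_self] at h2
    rw [W.dl_zero, one_mul] at h2
    simp only [← hdl]
    obtain ⟨Z, hZ⟩ : ∃ Z, Z = TR.ev z k (P.π k ω) := ⟨_, rfl⟩
    obtain ⟨w, hw⟩ : ∃ w : Mon r K → ℝ, w = fun m => ∏ i, TR.ev (q i) k (P.π k ω) ^ (m.1 i : ℕ) := ⟨_, rfl⟩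
    have e1 : (P.fp k).π ω = P.π k ω := rfl
    have e2 : ∀ m : Mon r K, ∏ i, TR.ev (q i) k (P.π k ω) ^ (m.1 i : ℕ) = w m := fun m => by rw [hw]
    rw [e1, ← hZ]
    simp only [e2]
    simp only [e2] at h2
    rw [← hZ] at h2
    have h5 := k5 ω hω
    simp only [e2] at h5
    have h6 : W.dl δ k * Z - ∑ m, (g k ω m : ℝ) * W.dl (1 + δ / 2) k * w m =
        W.dl δ k * (Z - ∑ m, TR.ev (c m) k ω * w m) +
        ∑ m, (W.dl δ k * (TR.ev (c m) k ω - (g k ω m : ℝ) * W.dl (1 - δ / 2) k)) * w m := by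
      have e3 : W.dl (1 + δ / 2) k = W.dl (1 - δ / 2) k * W.dl δ k := by
        rw [← W.dl_add]
        congr 1
        ring
      rw [mul_sub, Finset.mul_sum, sub_add, ← Finset.sum_sub_distrib]
      congr 1
      apply Finset.sum_congr rfl
      intro m _
      rw [e3]
      ring
    rw [h6]
    have h7 : |∑ m, (W.dl δ k * (TR.ev (c m) k ω - (g k ω m : ℝ) * W.dl (1 - δ / 2) k)) * w m| ≤
        W.dl (1 + δ / 2) k * Kq k := by
      refine (Finset.abs_sum_le_sum_abs _ _).trans ?_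
      have h8 : ∀ m, |(W.dl δ k * (TR.ev (c m) k ω - (g k ω m : ℝ) * W.dl (1 - δ / 2) k)) * w m| ≤
          W.dl (1 + δ / 2) k * |w m| := by
        intro m
        rw [abs_mul, abs_mul, abs_of_pos (W.dl_pos _ _)]
        apply mul_le_mul_of_nonneg_right _ (abs_nonneg _)
        have e3 : W.dl (1 + δ / 2) k = W.dl δ k * W.dl (1 - δ / 2) k := by
          rw [← W.dl_add]
          congr 1
          ring
        rw [e3]
        apply mul_le_mul_of_nonneg_left _ (W.dl_pos _ _).le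
        have hd := W.dl_pos (1 - δ / 2) k
        rw [hg]
        have h2 := Int.floor_le (TR.ev (c m) k ω / W.dl (1 - δ / 2) k)
        have h3 := Int.lt_floor_add_one (TR.ev (c m) k ω / W.dl (1 - δ / 2) k)
        rw [le_div_iff₀ hd] at h2
        rw [div_lt_iff₀ hd, add_mul, one_mul] at h3
        rw [abs_le]
        constructor <;> linarith
      calc ∑ m, |(W.dl δ k * (TR.ev (c m) k ω - (g k ω m : ℝ) * W.dl (1 - δ / 2) k)) * w m|
          ≤ ∑ m, W.dl (1 + δ / 2) k * |w m| := Finset.sum_le_sum fun m _ => h8 m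
        _ = W.dl (1 + δ / 2) k * ∑ m, |w m| := by rw [Finset.mul_sum]
        _ ≤ _ := mul_le_mul_of_nonneg_left h5 (W.dl_pos _ _).le
    have h8 : |W.dl δ k * (Z - ∑ m, TR.ev (c m) k ω * w m)| ≤ W.dl δ k * W.dl (v - δ / 4) k := by
      rw [abs_mul, abs_of_pos (W.dl_pos _ _)]
      exact mul_le_mul_of_nonneg_left h2 (W.dl_pos _ _).le
    have e4 : W.dl δ k * W.dl (v - δ / 4) k = W.dl v k * W.dl (3 * δ / 4) k := by
      rw [← W.dl_add, ← W.dl_add]
      congr 1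
      ring
    have e5 : W.dl (1 + δ / 2) k ≤ W.dl v k * W.dl (δ / 2) k := by
      rw [← W.dl_add]
      exact W.dl_anti (by linarith) k
    have e6 : W.dl (3 * δ / 4) k ≤ W.dl (δ / 4) k := W.dl_anti (by linarith) k
    have e7 : W.dl (δ / 2) k = W.dl (δ / 4) k * W.dl (δ / 4) k := by
      rw [← W.dl_add]
      congr 1
      ring
    have e8 : (2 : ℝ) ^ (δ / 4 * (W.F k).n) * W.dl (δ / 4) k = 1 := by
      unfold Sp.dl
      rw [← Real.rpow_add (by norm_num : (0 : ℝ) < 2), add_neg_cancel, Real.rpow_zero]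
    have p1 := W.dl_pos (δ / 4) k
    have p2 := W.dl_pos v k
    have e9 : 4 * W.dl (δ / 4) k ≤ 1 := by
      rw [← e8]
      exact mul_le_mul_of_nonneg_right (by linarith) p1.le
    have e10 : Kq k * W.dl (δ / 4) k ≤ 1 := by
      rw [← e8]
      exact mul_le_mul_of_nonneg_right (by linarith) p1.le
    have h9 : W.dl (1 + δ / 2) k * Kq k ≤ W.dl v k * W.dl (δ / 4) k := by
      calc W.dl (1 + δ / 2) k * Kq k ≤ (W.dl v k * W.dl (δ / 2) k) * Kq k := mul_le_mul_of_nonneg_right e5 k9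
        _ = (W.dl v k * W.dl (δ / 4) k) * (Kq k * W.dl (δ / 4) k) := by rw [e7]; ring
        _ ≤ (W.dl v k * W.dl (δ / 4) k) * 1 := mul_le_mul_of_nonneg_left e10 (by positivity)
        _ = _ := mul_one _
    have h10 : W.dl δ k * W.dl (v - δ / 4) k ≤ W.dl v k * W.dl (δ / 4) k := by
      rw [e4]
      exact mul_le_mul_of_nonneg_left e6 p2.le
    calc _ ≤ _ := abs_add_le _ _
      _ ≤ W.dl v k * W.dl (δ / 4) k + W.dl v k * W.dl (δ / 4) k := by linarith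
      _ ≤ W.dl v k := by nlinarith

end

end Pool.Agent.Helper60.CS
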