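import Pool.Agent.Helper60.CS.Qsl
import Pool.Agent.Helper31.EC.Rl

/-! Exact entropy calculus: diagonals of families of copies. -/

set_option autoImplicit false

namespace Pool.Agent.Helper60.CS

open Finset Filter Topology Pool.Agent.Helper69.RK Pool.Agent.Helper40.EL Pool.Agent.Helper31.EC
  Pool.Agent.Helper31.EC.Sp

noncomputable section

/-- families of `N + 1` extensions of the spaces of a diagonal -/
structure CD (κ ι : Type) (N : ℕ) where
  D : DI κ ι
  W : ℕ → Sp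
  p : ∀ j, Fin (N + 1) → Pj (W j) (D.S j)

namespace CD

variable {κ ι : Type} {N : ℕ} (Q : CD κ ι N)

/-- the functions of the copies -/
def D' : DI (Fin (N + 1) × κ) Empty where
  S := Q.W
  f := fun a j => (Q.p j a.1).tr (Q.D.f a.2 j)
  x := fun e => e.elim
  hx := fun e => e.elim

/-- independence of the copies for partitions with at most `2 ^ (C n)` cells, up to `1 / (j + 1)`; `u`: the information
which is common to the copies -/
def psi (u : Finset (ι ⊕ (κ × ℚ))) (C j k : ℕ) : Prop :=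
  ∀ A : Fin (N + 1) → Setoid ((Q.D.S j).F k).Ω,
    (∀ i ω, ((Q.D.S j).F k).μ ω ≠ 0 → (nv ((Q.D.S j).F k) (A i) ω : ℝ) ≤ 2 ^ ((C : ℝ) * ((Q.D.S j).F k).n)) →
    |((Q.W j).F k).e (Finset.univ.inf fun i => Setoid.comap ((Q.p j i).π k) (A i))
        (Setoid.comap ((Q.p j 0).π k) (Slow.gp Q.D u j k) ⊓ ((Q.W j).F k).Z) / ((Q.W j).F k).n -
      ∑ i, ((Q.D.S j).F k).e (A i) (Slow.gp Q.D u j k ⊓ ((Q.D.S j).F k).Z) / ((Q.D.S j).F k).n| ≤ 1 / ((j : ℝ) + 1)

theorem mapI_fsup {T S : Sp} (p : Pj T S) {ι : Type} (s : Finset ι) (A : ι → S.Inf) :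
    p.map (cl (fsup s A)) = s.sup fun i => p.map (cl (A i)) := by
  classical
  rw [cl_fsup]
  induction s using Finset.induction_on with
  | empty => rw [Finset.sup_empty, Finset.sup_empty, p.map_bot]
  | insert a s ha ih => rw [Finset.sup_insert, Finset.sup_insert, p.map_sup, ih]

/-- the entropies of the copies as rates -/
theorem h_copies {T S : Sp} (p : Fin (N + 1) → Pj T S) (A : Fin (N + 1) → S.Inf) (V : S.Inf) :
    h (Finset.univ.sup fun i => (p i).map (cl (A i))) ((p 0).map (cl V)) =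
      ul (fun k => (T.F k).e (Finset.univ.inf fun i => Setoid.comap ((p i).π k) ((A i).1 k))
        (Setoid.comap ((p 0).π k) (V.1 k) ⊓ (T.F k).Z) / (T.F k).n) := by
  have h1 : (Finset.univ.sup fun i => (p i).map (cl (A i))) = cl (fsup Finset.univ fun i => (p i).mapI (A i)) := by
    rw [cl_fsup]
    rfl
  rw [h1, Pj.map_cl, h_cl]
  rfl

theorem ul_sum {α : Type} (s : Finset α) (f : α → ℕ → ℝ) (hf : ∀ i ∈ s, UB (f i)) :
    UB (fun k => ∑ i ∈ s, f i k) ∧ ul (fun k => ∑ i ∈ s, f i k) = ∑ i ∈ s, ul (f i) := by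
  have h1 : Tendsto (fun k => ∑ i ∈ s, f i k) UF (𝓝 (∑ i ∈ s, ul (f i))) :=
    tendsto_finsetSum s fun i hi => ul_tendsto (hf i hi)
  classical
  have h2 : ∀ s : Finset α, (∀ i ∈ s, UB (f i)) → UB (fun k => ∑ i ∈ s, f i k) := by
    intro s
    induction s using Finset.induction_on with
    | empty =>
      intro _
      simp only [Finset.sum_empty]
      exact UB_const 0
    | insert a s ha ih =>
      intro h
      simp only [Finset.sum_insert ha]
      exact (h a (Finset.mem_insert_self a s)).add (ih fun i hi => h i (Finset.mem_insert_of_mem hi))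
  exact ⟨h2 s hf, tendsto_nhds_unique (ul_tendsto (h2 s hf)) h1⟩

/-- independence of copies as a finite statement -/
theorem psi_ev {u : Finset (ι ⊕ (κ × ℚ))} {j : ℕ}
    (hi : ∀ A : Fin (N + 1) → (Q.D.S j).L, h (Finset.univ.sup fun i => (Q.p j i).map (A i))
      ((Q.p j 0).map (u.sup fun g => cl (Q.D.gen g j))) = ∑ i, h (A i) (u.sup fun g => cl (Q.D.gen g j))) (C : ℕ) :
    ∀ᶠ k in UF, Q.psi u C j k := by
  classical
  by_contra hc
  have h1 := UF_not hc
  have h2 : ∀ k, ∃ A : Fin (N + 1) → Setoid ((Q.D.S j).F k).Ω,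
      (∀ i ω, ((Q.D.S j).F k).μ ω ≠ 0 → (nv ((Q.D.S j).F k) (A i) ω : ℝ) ≤ 2 ^ ((C : ℝ) * ((Q.D.S j).F k).n)) ∧
      (¬ Q.psi u C j k → 1 / ((j : ℝ) + 1) <
      |((Q.W j).F k).e (Finset.univ.inf fun i => Setoid.comap ((Q.p j i).π k) (A i))
        (Setoid.comap ((Q.p j 0).π k) (Slow.gp Q.D u j k) ⊓ ((Q.W j).F k).Z) / ((Q.W j).F k).n -
      ∑ i, ((Q.D.S j).F k).e (A i) (Slow.gp Q.D u j k ⊓ ((Q.D.S j).F k).Z) / ((Q.D.S j).F k).n|) := by
    intro k
    by_cases h3 : Q.psi u C j k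
    · refine ⟨fun _ => ⊤, fun i ω hω => ?_, fun h4 => absurd h3 h4⟩
      have h4 : nv ((Q.D.S j).F k) ⊤ ω ≤ 1 := by
        unfold nv nvf
        rw [Finset.card_le_one]
        intro a _ b _
        induction a using Quotient.ind
        induction b using Quotient.ind
        exact Quotient.sound trivial
      have h5 : (1 : ℝ) ≤ 2 ^ ((C : ℝ) * ((Q.D.S j).F k).n) :=
        Real.one_le_rpow (by norm_num) (mul_nonneg (Nat.cast_nonneg _) ((Q.D.S j).F k).pos.le)
      exact le_trans (by exact_mod_cast h4) h5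
    · unfold psi at h3
      push Not at h3
      obtain ⟨A, h4, h5⟩ := h3
      exact ⟨A, h4, fun _ => h5⟩
  choose A hA hA' using h2
  obtain ⟨B, hB⟩ : ∃ B : Fin (N + 1) → (Q.D.S j).Inf, ∀ i k, (B i).1 k = A k i :=
    ⟨fun i => ⟨fun k => A k i, C, Eventually.of_forall fun k => hA k i⟩, fun _ _ => rfl⟩
  have h3 := hi fun i => cl (B i)
  rw [← cl_fsup, h_copies] at h3
  have h4 : ∀ i, h (cl (B i)) (cl (fsup u fun g => Q.D.gen g j)) =
      ul ((Q.D.S j).rt (B i).1 (fsup u fun g => Q.D.gen g j).1) := fun i => h_cl _ _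
  rw [Finset.sum_congr rfl fun i _ => h4 i, ← (ul_sum Finset.univ _ fun i _ => UB_rt _ _).2] at h3
  have hu1 : UB (fun k => ((Q.W j).F k).e (Finset.univ.inf fun i => Setoid.comap ((Q.p j i).π k) ((B i).1 k))
        (Setoid.comap ((Q.p j 0).π k) ((fsup u fun g => Q.D.gen g j).1 k) ⊓ ((Q.W j).F k).Z) / ((Q.W j).F k).n) :=
    UB_rt (fsup Finset.univ fun i => (Q.p j i).mapI (B i)) ((Q.p j 0).mapI (fsup u fun g => Q.D.gen g j)).1
  have hu2 := (ul_sum Finset.univ (fun i => (Q.D.S j).rt (B i).1 (fsup u fun g => Q.D.gen g j).1)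
    fun i _ => UB_rt _ _).1
  have h5 := ((ul_tendsto hu1).sub (ul_tendsto hu2)).abs
  rw [h3, sub_self, abs_zero] at h5
  have h6 : (0 : ℝ) < 1 / ((j : ℝ) + 1) := by positivity
  obtain ⟨k, h7, h8⟩ := ((h5.eventually (gt_mem_nhds h6)).and h1).exists
  have h9 := hA' k h8
  have h10 : ∀ i, (B i).1 k = A k i := fun i => hB i k
  simp only [Sp.rt, h10] at h7
  exact lt_irrefl _ (lt_trans h9 h7)

/-- the slow sequence of the spaces, from the slow sequence of the copies -/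
def toS (s' : Slow Q.D') (h : ∀ c, ∀ᶠ k in UF, Q.D.cond c (s'.J k) k) : Slow Q.D := ⟨s'.J, s'.tend, h⟩

variable {Q}
variable (s' : Slow Q.D') (h : ∀ c, ∀ᶠ k in UF, Q.D.cond c (s'.J k) k)

/-- the projections in the diagonal -/
def pj (i : Fin (N + 1)) : Pj s'.sp (Q.toS s' h).sp where
  π := fun k => (Q.p (s'.J k) i).π k
  law := fun k => (Q.p (s'.J k) i).law k
  hZ := fun k => (Q.p (s'.J k) i).hZ k
  hn := fun k => (Q.p (s'.J k) i).hn k

theorem pj_qf (i : Fin (N + 1)) (a : κ) : (pj s' h i).qs ((Q.toS s' h).qf a) = s'.qf (i, a) := rfl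

/-- DIAGONAL OF COPIES -/
def cq {α : Type} [Fintype α] (g : α → κ) (u : Finset (ι ⊕ (κ × ℚ)))
    (hu : (u.sup fun g => cl ((Q.toS s' h).gen g)) = QS.vd (fun a => (Q.toS s' h).qf (g a)) 1)
    (com : ∀ (i i' : Fin (N + 1)) (a : α), ∀ᶠ k in UF, Slow.AgC Q.D' (i, g a) (i', g a) (fun _ => 1) (s'.J k) k)
    (psi : ∀ C : ℕ, ∀ᶠ k in UF, Q.psi u C (s'.J k) k) : QS.CQ (Q.toS s' h).sp (fun a => (Q.toS s' h).qf (g a)) N where
  W := s'.sp
  p := pj s' h
  com := by
    intro i i' a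
    rw [pj_qf, pj_qf]
    exact s'.qf_eq le_rfl tendsto_const_nhds (com i i' a)
  ind := by
    intro A
    have hA : ∀ i, ∃ B : (Q.toS s' h).sp.Inf, cl B = A i := fun i => by
      obtain ⟨B⟩ := A i
      exact ⟨B, rfl⟩
    choose B hB using hA
    obtain ⟨C, hC⟩ : ∃ C : ℕ, ∀ᶠ k in UF, ∀ i ω, (((Q.toS s' h).sp).F k).μ ω ≠ 0 →
        (nv (((Q.toS s' h).sp).F k) ((B i).1 k) ω : ℝ) ≤ 2 ^ ((C : ℝ) * (((Q.toS s' h).sp).F k).n) := by
      choose c hc using fun i => (B i).2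
      obtain ⟨C, hC⟩ := exists_nat_ge (∑ i, |c i|)
      refine ⟨C, ?_⟩
      have h1 : ∀ᶠ k in UF, ∀ i ∈ (Finset.univ : Finset (Fin (N + 1))), ∀ ω, (((Q.toS s' h).sp).F k).μ ω ≠ 0 →
          (nv (((Q.toS s' h).sp).F k) ((B i).1 k) ω : ℝ) ≤ 2 ^ (c i * (((Q.toS s' h).sp).F k).n) := by
        rw [Filter.eventually_all_finset]
        exact fun i _ => hc i
      filter_upwards [h1] with k hk i ω hω
      refine (hk i (Finset.mem_univ i) ω hω).trans ?_
      apply Real.rpow_le_rpow_of_exponent_le (by norm_num)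
      apply mul_le_mul_of_nonneg_right _ (((Q.toS s' h).sp).F k).pos.le
      calc c i ≤ |c i| := le_abs_self _
        _ ≤ ∑ i, |c i| := Finset.single_le_sum (f := fun i => |c i|) (fun _ _ => abs_nonneg _) (Finset.mem_univ i)
        _ ≤ C := hC
    rw [← hu, ← cl_fsup]
    have e1 : (Finset.univ.sup fun i => (pj s' h i).map (A i)) =
        Finset.univ.sup fun i => (pj s' h i).map (cl (B i)) := by
      congr 1
      funext i
      rw [hB]
    rw [e1, h_copies]
    have h4 : ∀ i, Pool.Agent.Helper31.EC.h (A i) (cl (fsup u fun g => (Q.toS s' h).gen g)) =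
        ul ((Q.toS s' h).sp.rt (B i).1 (fsup u fun g => (Q.toS s' h).gen g).1) := fun i => by
      rw [← hB, h_cl]
    rw [Finset.sum_congr rfl fun i _ => h4 i, ← (ul_sum Finset.univ _ fun i _ => UB_rt _ _).2]
    have hu1 : UB (fun k => ((s'.sp).F k).e (Finset.univ.inf fun i => Setoid.comap ((pj s' h i).π k) ((B i).1 k))
          (Setoid.comap ((pj s' h 0).π k) ((fsup u fun g => (Q.toS s' h).gen g).1 k) ⊓ ((s'.sp).F k).Z) /
          ((s'.sp).F k).n) :=
      UB_rt (fsup Finset.univ fun i => (pj s' h i).mapI (B i)) ((pj s' h 0).mapI (fsup u fun g => (Q.toS s' h).gen g)).1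
    have hu2 := (ul_sum Finset.univ (fun i => (Q.toS s' h).sp.rt (B i).1 (fsup u fun g => (Q.toS s' h).gen g).1)
      fun i _ => UB_rt _ _).1
    have h5 := (ul_tendsto hu1).sub (ul_tendsto hu2)
    have h6 : Tendsto (fun k => ((s'.sp).F k).e
        (Finset.univ.inf fun i => Setoid.comap ((pj s' h i).π k) ((B i).1 k))
          (Setoid.comap ((pj s' h 0).π k) ((fsup u fun g => (Q.toS s' h).gen g).1 k) ⊓ ((s'.sp).F k).Z) /
          ((s'.sp).F k).n - ∑ i, (Q.toS s' h).sp.rt (B i).1 (fsup u fun g => (Q.toS s' h).gen g).1 k) UF (𝓝 0) := by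
      rw [tendsto_zero_iff_abs_tendsto_zero]
      refine squeeze_zero' (Eventually.of_forall fun k => abs_nonneg _) ?_ (one_div_J s'.tend)
      filter_upwards [psi C, hC] with k h7 h8
      exact h7 (fun i => (B i).1 k) h8
    have h7 := tendsto_nhds_unique h5 h6
    linarith

end CD

end

end Pool.Agent.Helper60.CS
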