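import Pool.Agent.Helper31.EC.Uns

/-! Exact entropy calculus: diagonals of sequences of spaces, with countably many tame functions and informations. -/

set_option autoImplicit false

namespace Pool.Agent.Helper60.CS

open Finset Filter Topology Pool.Agent.Helper69.RK Pool.Agent.Helper31.EC Pool.Agent.Helper31.EC.Sp

noncomputable section

/-- slow sequences for countably many conditions -/
theorem exists_slow {ι : Type} [Countable ι] (E : ι → ℕ → ℕ → Prop) (hE : ∀ i j, ∀ᶠ k in UF, E i j k) :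
    ∃ J : ℕ → ℕ, Tendsto J UF atTop ∧ ∀ i, ∀ᶠ k in UF, E i (J k) k := by
  rcases isEmpty_or_nonempty ι with h | h
  · obtain ⟨J, hJ, -, -⟩ := diag_in_place (fun _ _ _ => 0) (fun _ _ _ => True) (fun _ _ => UB_const 0)
      (fun _ _ => Eventually.of_forall fun _ => trivial)
    exact ⟨J, hJ, fun i => (h.false i).elim⟩
  · obtain ⟨e, he⟩ := exists_surjective_nat ι
    obtain ⟨J, hJ, -, h2⟩ := diag_in_place (fun _ _ _ => 0) (fun i => E (e i)) (fun _ _ => UB_const 0)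
      (fun i j => hE (e i) j)
    refine ⟨J, hJ, fun i => ?_⟩
    obtain ⟨a, rfl⟩ := he i
    exact h2 a

/-- the diagonal of a sequence of spaces -/
def dgs (S : ℕ → Sp) (J : ℕ → ℕ) (hJ : Tendsto (fun k => ((S (J k)).F k).n) UF atTop) : Sp :=
  ⟨fun k => (S (J k)).F k, hJ⟩

/-! ### finite joins of informations -/

section fsup

variable {S : Sp} {ι : Type}

theorem VB_finf (s : Finset ι) (A : ι → S.Inf) : S.VB (fun k => s.inf fun i => (A i).1 k) := by
  classical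
  induction s using Finset.induction_on with
  | empty =>
    have : (fun k => (∅ : Finset ι).inf fun i => (A i).1 k) = S.tr := by
      funext k
      rw [Finset.inf_empty]
      rfl
    rw [this]
    exact VB_tr
  | insert a s ha ih =>
    have : (fun k => (insert a s).inf fun i => (A i).1 k) = fun k => (A a).1 k ⊓ s.inf fun i => (A i).1 k := by
      funext k
      rw [Finset.inf_insert]
    rw [this]
    exact (A a).2.inf ih

/-- the join of finitely many informations -/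
def fsup (s : Finset ι) (A : ι → S.Inf) : S.Inf := ⟨fun k => s.inf fun i => (A i).1 k, VB_finf s A⟩

theorem cl_fsup (s : Finset ι) (A : ι → S.Inf) : cl (fsup s A) = s.sup fun i => cl (A i) := by
  classical
  induction s using Finset.induction_on with
  | empty =>
    rw [Finset.sup_empty, ← cl_bot]
    congr 1
  | insert a s ha ih =>
    rw [Finset.sup_insert, ← ih, ← cl_sup]
    congr 1
    apply Subtype.ext
    funext k
    show (insert a s).inf _ = _
    rw [Finset.inf_insert]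
    rfl

theorem H_fsup (s : Finset ι) (A : ι → S.Inf) :
    H (s.sup fun i => cl (A i)) = ul (S.rt (fun k => s.inf fun i => (A i).1 k) S.tr) := by
  rw [← cl_fsup, H_cl]
  rfl

end fsup

/-- the number of cells, with an explicit constant -/
theorem nv_cell_le {S : Sp} (y : S.VV 1) (r : ℝ) : ∀ᶠ k in UF, ∀ ω, (S.F k).μ ω ≠ 0 →
    (nv (S.F k) (Setoid.ker (y.cellv r k)) ω : ℝ) ≤ 2 ^ ((max r 0 + 1) * (S.F k).n) := by
  obtain ⟨C, hCs, hC⟩ := y.bd
  have hs : S.Sub (fun k => 2 * C k + 3) :=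
    ((S.Sub_const (show (0 : ℝ) ≤ 2 by norm_num)).mul hCs).add (S.Sub_const (show (0 : ℝ) ≤ 3 by norm_num))
  filter_upwards [hC, hCs.1, hs.eventually_le one_pos] with k hk hC0 hk' ω hω
  rw [nv_ker]
  have hd := S.dl_pos r k
  have e0 : (1 : ℝ) ≤ 2 ^ (max r 0 * (S.F k).n) := by
    apply Real.one_le_rpow (by norm_num)
    have := (S.F k).pos
    positivity
  obtain ⟨M, hM⟩ : ∃ M, M = C k * 2 ^ (max r 0 * (S.F k).n) + 1 := ⟨_, rfl⟩
  have hM0 : 0 ≤ M := by rw [hM]; positivity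
  have h1 : ∀ ω, (S.F k).μ ω ≠ 0 → ∀ i, |(y.cellv r k ω i : ℝ)| ≤ M := by
    intro ω hω i
    have h1 := hk ω hω i
    have h2 : |y.v k ω i / S.dl r k| ≤ C k * 2 ^ (max r 0 * (S.F k).n) := by
      rw [abs_div, abs_of_pos hd, div_eq_mul_one_div]
      exact mul_le_mul h1 (S.one_div_dl_le r k) (by positivity) hC0
    have h3 := Int.floor_le (y.v k ω i / S.dl r k)
    have h4 := Int.lt_floor_add_one (y.v k ω i / S.dl r k)
    show |(⌊y.v k ω i / S.dl r k⌋ : ℝ)| ≤ _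
    rw [abs_le] at h2 ⊢
    constructor <;> linarith [h2.1, h2.2]
  have h3 : (nvf (S.F k).μ (y.cellv r k) (Quotient.mk (S.F k).Z) ω : ℝ) ≤ (2 * M + 1) ^ 1 := by
    apply nvf_box _ _ _ _ (2 * M) (by linarith)
    intro ω₁ ω₂ h₁ h₂ i
    have e1 := abs_le.mp (h1 ω₁ h₁ i)
    have e2 := abs_le.mp (h1 ω₂ h₂ i)
    rw [abs_le]
    constructor <;> linarith [e1.1, e1.2, e2.1, e2.2]
  refine h3.trans ?_
  rw [pow_one]
  have e1 : (2 : ℝ) ^ ((max r 0 + 1) * (S.F k).n) = 2 ^ (max r 0 * (S.F k).n) * 2 ^ (1 * (S.F k).n) := by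
    rw [← Real.rpow_add (by norm_num : (0 : ℝ) < 2)]
    congr 1; ring
  rw [e1]
  have e2 : (2 : ℝ) ^ (max r 0 * (S.F k).n) * (2 * C k + 3 + 2) ≤ 2 ^ (max r 0 * (S.F k).n) * 2 ^ (1 * (S.F k).n) :=
    mul_le_mul_of_nonneg_left hk' (by positivity)
  rw [hM]
  nlinarith

/-- input of a diagonal: spaces, tame functions, uniformly bounded informations -/
structure DI (κ ι : Type) where
  S : ℕ → Sp
  f : κ → ∀ j, TR (S j)
  x : ι → ∀ j, (S j).Inf
  hx : ∀ i, ∃ C : ℝ, ∀ j, ∀ᶠ k in UF, ∀ ω, ((S j).F k).μ ω ≠ 0 →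
    (nv ((S j).F k) ((x i j).1 k) ω : ℝ) ≤ 2 ^ (C * ((S j).F k).n)

namespace DI

variable {κ ι : Type} (D : DI κ ι)

/-- the generators: informations and rational levels of the functions -/
def gen : ι ⊕ (κ × ℚ) → ∀ j, (D.S j).Inf
  | Sum.inl i => D.x i
  | Sum.inr p => fun j => ((TR.vec (fun _ : Fin 1 => D.f p.1 j)).bdd p.2).toInf

theorem gen_inr (a : κ) (q : ℚ) (j : ℕ) : cl (D.gen (Sum.inr (a, q)) j) = TR.dg (D.f a j) q := by
  unfold TR.dg VV.dg
  rw [io_eq (VV.bdd _ _)]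
  rfl

theorem gen_bd (g : ι ⊕ (κ × ℚ)) : ∃ C : ℝ, ∀ j, ∀ᶠ k in UF, ∀ ω, ((D.S j).F k).μ ω ≠ 0 →
    (nv ((D.S j).F k) ((D.gen g j).1 k) ω : ℝ) ≤ 2 ^ (C * ((D.S j).F k).n) := by
  rcases g with i | ⟨a, q⟩
  · exact D.hx i
  · exact ⟨max (q : ℝ) 0 + 1, fun j => nv_cell_le _ _⟩

/-- the constant of a generator -/
def cst (g : ι ⊕ (κ × ℚ)) : ℝ := (D.gen_bd g).choose

/-- subexponential bound of a tame function -/
def bnd (a : κ) (j : ℕ) : ℕ → ℝ := (D.f a j).2.choose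

/-- the conditions on a slow sequence -/
inductive Cd (κ ι : Type)
  | dep : Cd κ ι
  | vb : ι ⊕ (κ × ℚ) → Cd κ ι
  | tm : κ → Cd κ ι
  | rat : Finset (ι ⊕ (κ × ℚ)) → Cd κ ι

/-- the conditions on a slow sequence -/
def cond : Cd κ ι → ℕ → ℕ → Prop
  | Cd.dep => fun j k => (j : ℝ) ≤ ((D.S j).F k).n
  | Cd.vb g => fun j k => ∀ ω, ((D.S j).F k).μ ω ≠ 0 →
      (nv ((D.S j).F k) ((D.gen g j).1 k) ω : ℝ) ≤ 2 ^ (D.cst g * ((D.S j).F k).n)
  | Cd.tm a => fun j k => 0 ≤ D.bnd a j k ∧ Real.logb 2 (D.bnd a j k + 2) / ((D.S j).F k).n ≤ 1 / ((j : ℝ) + 1) ∧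
      ∀ ω, ((D.S j).F k).μ ω ≠ 0 → |(D.f a j).1 k ω| ≤ D.bnd a j k
  | Cd.rat s => fun j k => |(D.S j).rt (fun k => s.inf fun g => (D.gen g j).1 k) (D.S j).tr k -
      H (s.sup fun g => cl (D.gen g j))| ≤ 1 / ((j : ℝ) + 1)

theorem cond_ev (c : Cd κ ι) (j : ℕ) : ∀ᶠ k in UF, D.cond c j k := by
  rcases c with _ | g | a | s
  · exact (D.S j).lim.eventually (eventually_ge_atTop (j : ℝ))
  · exact (D.gen_bd g).choose_spec j
  · have h1 := (D.f a j).2.choose_spec
    have h2 : (0 : ℝ) < 1 / ((j : ℝ) + 1) := by positivity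
    filter_upwards [h1.1.1, h1.1.2.eventually (gt_mem_nhds h2), h1.2] with k a b c using ⟨a, b.le, c⟩
  · have h2 : (0 : ℝ) < 1 / ((j : ℝ) + 1) := by positivity
    have h3 := ul_tendsto (UB_rt (fsup s fun g => D.gen g j) (D.S j).tr)
    have h4 : ul ((D.S j).rt (fsup s fun g => D.gen g j).1 (D.S j).tr) = H (s.sup fun g => cl (D.gen g j)) :=
      (H_fsup s fun g => D.gen g j).symm
    rw [h4] at h3
    have h5 := (h3.sub_const (H (s.sup fun g => cl (D.gen g j)))).abs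
    rw [sub_self, abs_zero] at h5
    filter_upwards [h5.eventually (gt_mem_nhds h2)] with k hk using hk.le

end DI

/-- a slow sequence for the conditions of the diagonal -/
structure Slow {κ ι : Type} (D : DI κ ι) where
  J : ℕ → ℕ
  tend : Tendsto J UF atTop
  cd : ∀ c, ∀ᶠ k in UF, D.cond c (J k) k

/-- slow sequences exist, with countably many further conditions -/
theorem exists_Slow {κ ι γ : Type} [Countable κ] [Countable ι] [Countable γ] (D : DI κ ι) (E : γ → ℕ → ℕ → Prop)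
    (hE : ∀ i j, ∀ᶠ k in UF, E i j k) : ∃ s : Slow D, ∀ i, ∀ᶠ k in UF, E i (s.J k) k := by
  have hc : Countable (DI.Cd κ ι) := by
    have h1 : Countable (Unit ⊕ (ι ⊕ (κ × ℚ)) ⊕ κ ⊕ Finset (ι ⊕ (κ × ℚ))) := inferInstance
    refine Function.Injective.countable (β := Unit ⊕ (ι ⊕ (κ × ℚ)) ⊕ κ ⊕ Finset (ι ⊕ (κ × ℚ)))
      (f := fun c => match c with
        | DI.Cd.dep => Sum.inl ()
        | DI.Cd.vb g => Sum.inr (Sum.inl g)
        | DI.Cd.tm a => Sum.inr (Sum.inr (Sum.inl a))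
        | DI.Cd.rat s => Sum.inr (Sum.inr (Sum.inr s))) ?_
    intro c c' h
    rcases c with _ | g | a | s <;> rcases c' with _ | g' | a' | s' <;> simp at h <;> first | rfl | rw [h]
  obtain ⟨J, hJ, h⟩ := exists_slow (fun c : DI.Cd κ ι ⊕ γ => Sum.elim D.cond E c)
    (by rintro (c | i) j
        · exact D.cond_ev c j
        · exact hE i j)
  exact ⟨⟨J, hJ, fun c => h (Sum.inl c)⟩, fun i => h (Sum.inr i)⟩

theorem one_div_J {J : ℕ → ℕ} (hJ : Tendsto J UF atTop) : Tendsto (fun k => 1 / ((J k : ℝ) + 1)) UF (𝓝 0) :=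
  tendsto_one_div_add_atTop_nhds_zero_nat.comp hJ

namespace Slow

variable {κ ι : Type} {D : DI κ ι} (s : Slow D)

theorem lim : Tendsto (fun k => ((D.S (s.J k)).F k).n) UF atTop := by
  have h1 : Tendsto (fun k => (s.J k : ℝ)) UF atTop := tendsto_natCast_atTop_atTop.comp s.tend
  exact tendsto_atTop_mono' UF (s.cd DI.Cd.dep) h1

/-- the diagonal -/
def sp : Sp := dgs D.S s.J s.lim

/-- the functions of the diagonal -/
def fn (a : κ) : TR s.sp := ⟨fun k => (D.f a (s.J k)).1 k, by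
  refine ⟨fun k => D.bnd a (s.J k) k, ⟨?_, ?_⟩, ?_⟩
  · filter_upwards [s.cd (DI.Cd.tm a)] with k hk using hk.1
  · refine squeeze_zero' ?_ ?_ (one_div_J s.tend)
    · filter_upwards [s.cd (DI.Cd.tm a)] with k hk
      exact div_nonneg (Real.logb_nonneg (by norm_num) (by linarith [hk.1])) (s.sp.F k).pos.le
    · filter_upwards [s.cd (DI.Cd.tm a)] with k hk using hk.2.1
  · filter_upwards [s.cd (DI.Cd.tm a)] with k hk using hk.2.2⟩

theorem gen_VB (g : ι ⊕ (κ × ℚ)) : s.sp.VB (fun k => (D.gen g (s.J k)).1 k) :=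
  ⟨D.cst g, s.cd (DI.Cd.vb g)⟩

/-- the generators of the diagonal -/
def gen (g : ι ⊕ (κ × ℚ)) : s.sp.Inf := ⟨fun k => (D.gen g (s.J k)).1 k, s.gen_VB g⟩

/-- the informations of the diagonal -/
def el (i : ι) : s.sp.Inf := s.gen (Sum.inl i)

theorem gen_inr (a : κ) (q : ℚ) : cl (s.gen (Sum.inr (a, q))) = TR.dg (s.fn a) q := by
  unfold TR.dg VV.dg
  rw [io_eq (VV.bdd _ _)]
  rfl

/-- RATES: entropies in the diagonal are limits of entropies in the spaces of the sequence -/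
theorem H_gen (u : Finset (ι ⊕ (κ × ℚ))) :
    Tendsto (fun k => H (u.sup fun g => cl (D.gen g (s.J k)))) UF (𝓝 (H (u.sup fun g => cl (s.gen g)))) := by
  have h1 := ul_tendsto (UB_rt (fsup u fun g => s.gen g) s.sp.tr)
  have h2 : ul (s.sp.rt (fsup u fun g => s.gen g).1 s.sp.tr) = H (u.sup fun g => cl (s.gen g)) :=
    (H_fsup u fun g => s.gen g).symm
  rw [h2] at h1
  have h3 : Tendsto (fun k => s.sp.rt (fsup u fun g => s.gen g).1 s.sp.tr k -
      H (u.sup fun g => cl (D.gen g (s.J k)))) UF (𝓝 0) := by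
    rw [tendsto_zero_iff_abs_tendsto_zero]
    refine squeeze_zero' (Eventually.of_forall fun k => abs_nonneg _) ?_ (one_div_J s.tend)
    filter_upwards [s.cd (DI.Cd.rat u)] with k hk
    exact hk
  have h4 := h1.sub h3
  simp only [sub_sub_cancel, sub_zero] at h4
  exact h4

theorem H_gen_of {u : Finset (ι ⊕ (κ × ℚ))} {b : ℝ}
    (h : Tendsto (fun j => H (u.sup fun g => cl (D.gen g j))) atTop (𝓝 b)) : H (u.sup fun g => cl (s.gen g)) = b := by
  have h1 := s.H_gen u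
  exact tendsto_nhds_unique h1 (h.comp s.tend)

theorem h_gen (u v : Finset (ι ⊕ (κ × ℚ))) :
    Tendsto (fun k => Pool.Agent.Helper31.EC.h (u.sup fun g => cl (D.gen g (s.J k))) (v.sup fun g => cl (D.gen g (s.J k))))
      UF (𝓝 (Pool.Agent.Helper31.EC.h (u.sup fun g => cl (s.gen g)) (v.sup fun g => cl (s.gen g)))) := by
  classical
  unfold Pool.Agent.Helper31.EC.h
  have h1 := s.H_gen (u ∪ v)
  have h2 := s.H_gen v
  rw [Finset.sup_union] at h1
  refine (h1.sub h2).congr fun k => ?_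
  rw [Finset.sup_union]

theorem h_gen_of {u v : Finset (ι ⊕ (κ × ℚ))} {b : ℝ}
    (h : Tendsto (fun j => Pool.Agent.Helper31.EC.h (u.sup fun g => cl (D.gen g j)) (v.sup fun g => cl (D.gen g j)))
      atTop (𝓝 b)) :
    Pool.Agent.Helper31.EC.h (u.sup fun g => cl (s.gen g)) (v.sup fun g => cl (s.gen g)) = b :=
  tendsto_nhds_unique (s.h_gen u v) (h.comp s.tend)

/-- upper bounds pass to the diagonal -/
theorem h_gen_le {u v : Finset (ι ⊕ (κ × ℚ))} {b : ℝ} {β : ℕ → ℝ} (hβ : Tendsto β atTop (𝓝 b))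
    (h : ∀ j, Pool.Agent.Helper31.EC.h (u.sup fun g => cl (D.gen g j)) (v.sup fun g => cl (D.gen g j)) ≤ β j) :
    Pool.Agent.Helper31.EC.h (u.sup fun g => cl (s.gen g)) (v.sup fun g => cl (s.gen g)) ≤ b :=
  le_of_tendsto_of_tendsto (s.h_gen u v) (hβ.comp s.tend) (Eventually.of_forall fun k => h (s.J k))

/-- lower bounds pass to the diagonal -/
theorem le_h_gen {u v : Finset (ι ⊕ (κ × ℚ))} {b : ℝ} {β : ℕ → ℝ} (hβ : Tendsto β atTop (𝓝 b))
    (h : ∀ j, β j ≤ Pool.Agent.Helper31.EC.h (u.sup fun g => cl (D.gen g j)) (v.sup fun g => cl (D.gen g j))) :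
    b ≤ Pool.Agent.Helper31.EC.h (u.sup fun g => cl (s.gen g)) (v.sup fun g => cl (s.gen g)) :=
  le_of_tendsto_of_tendsto (hβ.comp s.tend) (s.h_gen u v) (Eventually.of_forall fun k => h (s.J k))

end Slow

end

end Pool.Agent.Helper60.CS
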