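import Pool.Agent.Helper60.CS.Shg
import Pool.Agent.Helper40.NSK.Flat

/-! The diagonal of flat corners with errors tending to `0` is an exact flat corner. -/

set_option autoImplicit false

namespace Pool.Agent.Helper60.CS

open Finset Filter Topology Pool.Agent.Helper69.RK Pool.Agent.Helper40.EL Pool.Agent.Helper31.EC
  Pool.Agent.Helper31.EC.Sp QS
open Pool.Agent.Helper40.NSK (FC CorH UnE Big)

noncomputable section

/-- names of the functions of a flat corner -/
inductive FI (d k : ℕ)
  | one : FI d k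
  | t : FI d k
  | a : Fin d → FI d k
  | x : Fin d → FI d k
  | c : Fin (k + 1) → FI d k
  | y : Fin d → FI d k
  | z : FI d k

instance FI.countable (d k : ℕ) : Countable (FI d k) := by
  refine Function.Injective.countable (β := Unit ⊕ Unit ⊕ Fin d ⊕ Fin d ⊕ Fin (k + 1) ⊕ Fin d ⊕ Unit)
    (f := fun c => match c with
      | FI.one => Sum.inl ()
      | FI.t => Sum.inr (Sum.inl ())
      | FI.a i => Sum.inr (Sum.inr (Sum.inl i))
      | FI.x i => Sum.inr (Sum.inr (Sum.inr (Sum.inl i)))
      | FI.c i => Sum.inr (Sum.inr (Sum.inr (Sum.inr (Sum.inl i))))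
      | FI.y i => Sum.inr (Sum.inr (Sum.inr (Sum.inr (Sum.inr (Sum.inl i)))))
      | FI.z => Sum.inr (Sum.inr (Sum.inr (Sum.inr (Sum.inr (Sum.inr ())))))) ?_
  intro c c' h
  rcases c with _ | _ | _ | _ | _ | _ | _ <;> rcases c' with _ | _ | _ | _ | _ | _ | _ <;> simp at h <;>
    first | rfl | rw [h]

instance Cd.countable (κ ι : Type) [Countable κ] [Countable ι] : Countable (DI.Cd κ ι) := by
  have h1 : Countable (Unit ⊕ (ι ⊕ (κ × ℚ)) ⊕ κ ⊕ Finset (ι ⊕ (κ × ℚ))) := inferInstance
  refine Function.Injective.countable (β := Unit ⊕ (ι ⊕ (κ × ℚ)) ⊕ κ ⊕ Finset (ι ⊕ (κ × ℚ)))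
    (f := fun c => match c with
      | DI.Cd.dep => Sum.inl ()
      | DI.Cd.vb g => Sum.inr (Sum.inl g)
      | DI.Cd.tm a => Sum.inr (Sum.inr (Sum.inl a))
      | DI.Cd.rat s => Sum.inr (Sum.inr (Sum.inr s))) ?_
  intro c c' h
  rcases c with _ | g | a | s <;> rcases c' with _ | g' | a' | s' <;> simp at h <;> first | rfl | rw [h]

section lev

variable {κ ι : Type}

open Classical in
/-- the generators of level `1` of finitely many functions -/
def gs (s : Finset κ) : Finset (ι ⊕ (κ × ℚ)) := s.image fun a => Sum.inr (a, (1 : ℚ))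

theorem sup_gs_D (D : DI κ ι) (s : Finset κ) (j : ℕ) :
    ((gs s).sup fun g => cl (D.gen g j)) = s.sup fun a => QS.dg (QS.mk (D.f a j)) 1 := by
  classical
  unfold gs
  rw [Finset.sup_image]
  apply Finset.sup_congr rfl
  intro a _
  show cl (D.gen (Sum.inr (a, (1 : ℚ))) j) = _
  rw [D.gen_inr, QS.dg_mk _ le_rfl]
  push_cast
  rfl

theorem sup_gs_s {D : DI κ ι} (s : Slow D) (u : Finset κ) :
    ((gs u).sup fun g => cl (s.gen g)) = u.sup fun a => QS.dg (s.qf a) 1 := by
  classical
  unfold gs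
  rw [Finset.sup_image]
  apply Finset.sup_congr rfl
  intro a _
  show cl (s.gen (Sum.inr (a, (1 : ℚ)))) = _
  rw [← s.qf_dg a (q := 1) (by norm_num)]
  push_cast
  rfl

theorem sup_img {S : Sp} {α : Type} [Fintype α] [DecidableEq κ] (g : α → κ) (F : κ → QS S) :
    ((Finset.univ.image g).sup fun a => QS.dg (F a) 1) = QS.vd (fun b => F (g b)) 1 := by
  rw [Finset.sup_image]
  rfl

end lev

section fc

variable {S : Sp} {d k : ℕ}

/-- the corner of a list of functions -/
def fcOf (F : FI d k → QS S) : FC S d k :=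
  ⟨F FI.t, fun i => F (FI.a i), fun i => F (FI.x i), F (FI.c 0), fun j => F (FI.c j.succ)⟩

/-- consistency -/
structure Cns (F : FI d k → QS S) : Prop where
  one : F FI.one = 1
  y : ∀ i, F (FI.y i) = F (FI.a i) + F FI.t * F (FI.x i)
  z : F FI.z = F (FI.c 0) + ∑ j : Fin k, F (FI.c j.succ) * F FI.t ^ (j.1 + 1)

/-- names of the functions of the point -/
def iB (d k : ℕ) : Fin (d + 1) ⊕ Unit → FI d k := Sum.elim (Fin.cons FI.t FI.y) fun _ => FI.z

/-- names of the functions of the direction -/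
def iV (d k : ℕ) : Fin (d + 1) → FI d k := Fin.cons FI.one FI.x

variable {F : FI d k → QS S}

theorem Cns.fB (h : Cns F) : (fun b => F (iB d k b)) = (fcOf F).fB := by
  funext b
  rcases b with i | b
  · induction i using Fin.cases with
    | zero => rfl
    | succ i => exact h.y i
  · exact h.z

theorem Cns.v (h : Cns F) : (fun l => F (iV d k l)) = (fcOf F).v := by
  funext l
  induction l using Fin.cases with
  | zero => exact h.one
  | succ i => rfl

open Classical in
def sL (d k : ℕ) : Finset (FI d k) := Finset.univ.image FI.a ∪ Finset.univ.image FI.x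
open Classical in
def sF (d k : ℕ) : Finset (FI d k) := Finset.univ.image fun j : Fin k => FI.c j.succ
open Classical in
def sA (d k : ℕ) : Finset (FI d k) := sL d k ∪ ({FI.c 0} ∪ sF d k)
open Classical in
def sX (d k : ℕ) : Finset (FI d k) := Finset.univ.image FI.x
open Classical in
def sY (d k : ℕ) : Finset (FI d k) := Finset.univ.image FI.y
open Classical in
def sYZ (d k : ℕ) : Finset (FI d k) := sY d k ∪ {FI.z}
open Classical in
def sQ (d k : ℕ) : Finset (FI d k) := sY d k ∪ {FI.t}
open Classical in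
def sYZT (d k : ℕ) : Finset (FI d k) := sYZ d k ∪ {FI.t}

variable (F)

theorem e_L : ((sL d k).sup fun a => QS.dg (F a) 1) = (fcOf F).iL := by
  classical
  unfold sL
  rw [Finset.sup_union]
  congr 1 <;> exact sup_img _ F

theorem e_F : ((sF d k).sup fun a => QS.dg (F a) 1) = (fcOf F).iF := by
  classical
  exact sup_img _ F

theorem e_A : ((sA d k).sup fun a => QS.dg (F a) 1) = (fcOf F).iA := by
  classical
  unfold sA
  rw [Finset.sup_union, Finset.sup_union, e_L, e_F, Finset.sup_singleton]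
  rfl

theorem e_X : ((sX d k).sup fun a => QS.dg (F a) 1) = (fcOf F).iX := by
  classical
  exact sup_img _ F

theorem e_T : (({FI.t} : Finset (FI d k)).sup fun a => QS.dg (F a) 1) = QS.dg (fcOf F).t 1 := Finset.sup_singleton

variable {F}

theorem e_Y (h : Cns F) : ((sY d k).sup fun a => QS.dg (F a) 1) = QS.vd (fcOf F).y 1 := by
  classical
  have h1 : ((sY d k).sup fun a => QS.dg (F a) 1) = QS.vd (fun b => F (FI.y b)) 1 := sup_img _ F
  rw [h1]
  congr 1
  funext i
  exact h.y i

theorem e_YZ (h : Cns F) : ((sYZ d k).sup fun a => QS.dg (F a) 1) = QS.vd (fcOf F).y 1 ⊔ QS.dg (fcOf F).z 1 := by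
  classical
  unfold sYZ
  rw [Finset.sup_union, e_Y h, Finset.sup_singleton, h.z]
  rfl

theorem e_Q (h : Cns F) : ((sQ d k).sup fun a => QS.dg (F a) 1) = (fcOf F).iQ := by
  classical
  unfold sQ
  rw [Finset.sup_union, e_Y h, Finset.sup_singleton]
  rfl

theorem e_YZT (h : Cns F) : ((sYZT d k).sup fun a => QS.dg (F a) 1) =
    QS.vd (fcOf F).y 1 ⊔ QS.dg (fcOf F).z 1 ⊔ QS.dg (fcOf F).t 1 := by
  classical
  unfold sYZT
  rw [Finset.sup_union, e_YZ h, Finset.sup_singleton]
  rfl

end fc

theorem tendsto_h_gs {κ ι : Type} {D : DI κ ι} (s : Slow D) (u v : Finset κ) :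
    Tendsto (fun k => h (u.sup fun a => QS.dg (QS.mk (D.f a (s.J k))) 1) (v.sup fun a => QS.dg (QS.mk (D.f a (s.J k))) 1))
      UF (𝓝 (h (u.sup fun a => QS.dg (s.qf a) 1) (v.sup fun a => QS.dg (s.qf a) 1))) := by
  have h1 := s.h_gen (gs u) (gs v)
  rw [sup_gs_s, sup_gs_s] at h1
  refine h1.congr fun k => ?_
  rw [sup_gs_D, sup_gs_D]

end

end Pool.Agent.Helper60.CS
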