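import Pool.Agent.Helper60.CS.FlatD

/-! The diagonal of flat corners with errors tending to `0` is an exact flat corner: the theorem. -/

set_option autoImplicit false

namespace Pool.Agent.Helper60.CS

open Finset Filter Topology Pool.Agent.Helper69.RK Pool.Agent.Helper40.EL Pool.Agent.Helper31.EC
  Pool.Agent.Helper31.EC.Sp QS
open Pool.Agent.Helper40.NSK (FC CorH UnE Big)

noncomputable section

/-- a sequence of flat corners with errors tending to `0`, given by tame functions -/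
structure SF (d k N : ℕ) where
  S : ℕ → Sp
  f : FI d k → ∀ j, TR (S j)
  fone : ∀ j, f FI.one j = 1
  fy : ∀ i j, f (FI.y i) j = f (FI.a i) j + f FI.t j * f (FI.x i) j
  fz : ∀ j, f FI.z j = f (FI.c 0) j + ∑ i : Fin k, f (FI.c i.succ) j * f FI.t j ^ (i.1 + 1)
  ρ : ℝ
  e : ℕ → ℝ
  he : Tendsto e atTop (𝓝 0)
  H : ∀ j, CorH (fcOf fun a => QS.mk (f a j)) N ρ (e j)

namespace SF

variable {d k N : ℕ} (X : SF d k N)

/-- the input of the diagonal -/
abbrev D : DI (FI d k) Empty where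
  S := X.S
  f := X.f
  x := fun e => e.elim
  hx := fun e => e.elim

theorem cn (j : ℕ) : Cns (fun a => QS.mk (X.D.f a j)) where
  one := by
    show QS.mk (X.f FI.one j) = 1
    rw [X.fone, map_one]
  y := fun i => by
    show QS.mk (X.f (FI.y i) j) = _
    rw [X.fy, map_add, map_mul]
  z := by
    show QS.mk (X.f FI.z j) = _
    rw [X.fz, map_add, map_sum]
    congr 1

theorem cns (s : Slow X.D) : Cns s.qf := by
  have h0 : ∀ (a : FI d k) (n : ℕ) (ω : (s.sp.F n).Ω), TR.evh n ω (s.fn a) = TR.evh (S := X.S (s.J n)) n ω (X.f a (s.J n)) :=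
    fun _ _ _ => rfl
  have h1 : ∀ f g : TR s.sp, (∀ n ω, TR.evh n ω f = TR.evh n ω g) → f = g := by
    intro f g h
    apply Subtype.ext
    funext n ω
    exact h n ω
  refine ⟨?_, ?_, ?_⟩
  · have : s.fn FI.one = 1 := by
      apply h1
      intro n ω
      rw [h0, X.fone, map_one, map_one]
    show QS.mk (s.fn FI.one) = 1
    rw [this, map_one]
  · intro i
    have : s.fn (FI.y i) = s.fn (FI.a i) + s.fn FI.t * s.fn (FI.x i) := by
      apply h1
      intro n ω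
      rw [h0, X.fy, map_add, map_mul, map_add, map_mul]
      rfl
    show QS.mk (s.fn (FI.y i)) = _
    rw [this, map_add, map_mul]
    rfl
  · have : s.fn FI.z = s.fn (FI.c 0) + ∑ i : Fin k, s.fn (FI.c i.succ) * s.fn FI.t ^ (i.1 + 1) := by
      apply h1
      intro n ω
      rw [h0, X.fz, map_add, map_sum, map_add, map_sum]
      congr 1
    show QS.mk (s.fn FI.z) = _
    rw [this, map_add, map_sum]
    congr 1

section

variable (w : ∀ j, CQ (X.S j) (fcOf fun a => QS.mk (X.f a j)).fB N)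

/-- the copies -/
abbrev Q : CD (FI d k) Empty N := ⟨X.D, fun j => (w j).W, fun j => (w j).p⟩

open Classical in
/-- names of the point, as generators -/
def u (d k : ℕ) : Finset (Empty ⊕ (FI d k × ℚ)) := gs (Finset.univ.image (iB d k))

theorem sup_u_D (j : ℕ) : ((u d k).sup fun g => cl (X.D.gen g j)) = vd (fcOf fun a => QS.mk (X.f a j)).fB 1 := by
  classical
  unfold u
  rw [sup_gs_D, sup_img, ← (X.cn j).fB]

theorem sup_u_s (s : Slow X.D) : ((u d k).sup fun g => cl (s.gen g)) = vd (fun b => s.qf (iB d k b)) 1 := by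
  classical
  unfold u
  rw [sup_gs_s, sup_img]

open Classical in
/-- the condition of the unsaturation, as generators -/
def un (d k : ℕ) (a : ℚ) : Finset (Empty ⊕ (FI d k × ℚ)) := {Sum.inr (FI.z, a)} ∪ gs (sQ d k)

/-- the determinant of `d + 1` directions -/
def dt (j : ℕ) (e : Fin (d + 1) → Fin (N + 1)) : TR (w j).W :=
  (Matrix.of fun i l => ((w j).p (e i)).tr (X.f (iV d k l) j)).det

/-- the conditions of the diagonal -/
def E {γ : Type} (Φ : γ → ℕ → ℕ → Prop) : (DI.Cd (FI d k) Empty ⊕ ((Fin (N + 1) × Fin (N + 1) × (Fin (d + 1) ⊕ Unit)) ⊕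
    (ℕ ⊕ ((ℚ × ℚ × ℕ) ⊕ (((Fin (d + 1) → Fin (N + 1)) × ℕ) ⊕ γ))))) → ℕ → ℕ → Prop
  | Sum.inl c => X.D.cond c
  | Sum.inr (Sum.inl b) => fun j n =>
      Slow.AgC (X.Q w).D' (b.1, iB d k b.2.2) (b.2.1, iB d k b.2.2) (fun _ => 1) j n
  | Sum.inr (Sum.inr (Sum.inl C)) => (X.Q w).psi (u d k) C
  | Sum.inr (Sum.inr (Sum.inr (Sum.inl b))) => fun j n => (0 ≤ b.1 ∧ b.1 ≤ b.2.1 ∧ b.2.1 ≤ 1 ∧
      X.e j ≤ 1 / ((b.2.2 : ℝ) + 1)) → Slow.RBc X.D {Sum.inr (FI.z, b.2.1)} (un d k b.1)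
        (fun j => (1 - X.ρ) * ((b.2.1 : ℝ) - b.1) + X.e j) b.2.2 j n
  | Sum.inr (Sum.inr (Sum.inr (Sum.inr (Sum.inl b)))) => fun j n => (Function.Injective b.1 ∧
      X.e j < 1 / ((b.2 : ℝ) + 1)) → ((w j).W.F n).pb (fun ω => |TR.ev (X.dt w j b.1) n ω| ≤
        (w j).W.dl (1 / ((b.2 : ℝ) + 1)) n) ≤ X.e j + 1 / ((j : ℝ) + 1)
  | Sum.inr (Sum.inr (Sum.inr (Sum.inr (Sum.inr g)))) => Φ g

variable {w}

theorem ev_fB (j : ℕ) (b : Fin (d + 1) ⊕ Unit) : (fcOf fun a => QS.mk (X.f a j)).fB b = QS.mk (X.f (iB d k b) j) :=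
  (congrFun (X.cn j).fB b).symm

theorem ev_v (j : ℕ) (l : Fin (d + 1)) : (fcOf fun a => QS.mk (X.f a j)).v l = QS.mk (X.f (iV d k l) j) :=
  (congrFun (X.cn j).v l).symm

theorem dt_mk (j : ℕ) (e : Fin (d + 1) → Fin (N + 1)) : QS.mk (X.dt w j e) =
    (Matrix.of fun i l => ((w j).p (e i)).qs ((fcOf fun a => QS.mk (X.f a j)).v l)).det := by
  unfold dt
  rw [RingHom.map_det]
  congr 1
  funext i l
  show QS.mk (((w j).p (e i)).tr (X.f (iV d k l) j)) = ((w j).p (e i)).qs ((fcOf fun a => QS.mk (X.f a j)).v l)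
  rw [ev_v]
  rfl

theorem gen_z (j : ℕ) {b : ℚ} (hb : b ≤ 1) : cl (X.D.gen (Sum.inr (FI.z, b)) j) =
    QS.dg (fcOf fun a => QS.mk (X.f a j)).z b := by
  rw [X.D.gen_inr]
  have h1 : ((b : ℚ) : ℝ) ≤ 1 := by exact_mod_cast hb
  have h2 : (fcOf fun a => QS.mk (X.f a j)).z = QS.mk (X.f FI.z j) := X.ev_fB j (Sum.inr ())
  rw [h2, QS.dg_mk _ h1]

theorem gen_z' (s : Slow X.D) {b : ℚ} (hb : b ≤ 1) : cl (s.gen (Sum.inr (FI.z, b))) = QS.dg (fcOf s.qf).z b := by
  have h1 : ((b : ℚ) : ℝ) ≤ 1 := by exact_mod_cast hb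
  rw [← s.qf_dg FI.z h1]
  have h2 : (fcOf s.qf).z = s.qf FI.z := (congrFun (X.cns s).fB (Sum.inr ())).symm
  rw [h2]

theorem sup_un_D (j : ℕ) {a : ℚ} (ha : a ≤ 1) : ((un d k a).sup fun g => cl (X.D.gen g j)) =
    QS.dg (fcOf fun a => QS.mk (X.f a j)).z a ⊔ (fcOf fun a => QS.mk (X.f a j)).iQ := by
  classical
  unfold un
  rw [Finset.sup_union, Finset.sup_singleton, X.gen_z j ha, sup_gs_D, e_Q (X.cn j)]

theorem sup_un_s (s : Slow X.D) {a : ℚ} (ha : a ≤ 1) : ((un d k a).sup fun g => cl (s.gen g)) =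
    QS.dg (fcOf s.qf).z a ⊔ (fcOf s.qf).iQ := by
  classical
  unfold un
  rw [Finset.sup_union, Finset.sup_singleton, X.gen_z' s ha, sup_gs_s, e_Q (X.cns s)]

/-- the conditions hold eventually -/
theorem E_ev {γ : Type} (Φ : γ → ℕ → ℕ → Prop) (hΦ : ∀ g j, ∀ᶠ n in UF, Φ g j n)
    (hw : ∀ j (e : Fin (d + 1) → Fin (N + 1)), Function.Injective e →
      Big (Matrix.of fun i l => ((w j).p (e i)).qs ((fcOf fun a => QS.mk (X.f a j)).v l)).det (X.e j)) :
    ∀ c j, ∀ᶠ n in UF, X.E w Φ c j n := by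
  classical
  rintro (c | b | C | ⟨a, b, i⟩ | ⟨e, i⟩ | g) j
  · exact X.D.cond_ev c j
  · show ∀ᶠ n in UF, Slow.AgC (X.Q w).D' (b.1, iB d k b.2.2) (b.2.1, iB d k b.2.2) (fun _ => 1) j n
    apply Slow.AgC_ev
    have h1 := (w j).com b.1 b.2.1 b.2.2
    rw [ev_fB, Pj.qs_mk, Pj.qs_mk, QS.mk_eq] at h1
    exact h1
  · show ∀ᶠ n in UF, (X.Q w).psi (u d k) C j n
    apply CD.psi_ev
    intro A
    have h1 : ((u d k).sup fun g => cl ((X.Q w).D.gen g j)) = vd (fcOf fun a => QS.mk (X.f a j)).fB 1 := X.sup_u_D j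
    rw [h1]
    exact (w j).ind A
  · show ∀ᶠ n in UF, ((0 ≤ a ∧ a ≤ b ∧ b ≤ 1 ∧ X.e j ≤ 1 / ((i : ℝ) + 1)) →
      Slow.RBc X.D {Sum.inr (FI.z, b)} (un d k a) (fun j => (1 - X.ρ) * ((b : ℝ) - a) + X.e j) i j n)
    by_cases hc : 0 ≤ a ∧ a ≤ b ∧ b ≤ 1 ∧ X.e j ≤ 1 / ((i : ℝ) + 1)
    · obtain ⟨h1, h2, h3, h4⟩ := hc
      have h5 := rb_of_le (fsup {Sum.inr (FI.z, b)} fun g => X.D.gen g j) (fsup (un d k a) fun g => X.D.gen g j)
        ((1 - X.ρ) * ((b : ℝ) - a) + X.e j) (δ := 1 / ((i : ℝ) + 1)) (by positivity)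
        (by rw [div_le_one (by positivity)]; linarith [(Nat.cast_nonneg i : (0 : ℝ) ≤ i)]) (by
          intro T p E hE h6
          rw [cl_fsup, cl_fsup, Finset.sup_singleton, X.gen_z j h3, X.sup_un_D j (h2.trans h3)]
          exact (X.H j).un T p E hE (h4.trans h6) a b (by exact_mod_cast h1) (by exact_mod_cast h2)
            (by exact_mod_cast h3)) (ε := 1 / ((j : ℝ) + 1)) (by positivity)
      exact h5.mono fun n hn _ => hn
    · exact Eventually.of_forall fun n h => absurd h hc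
  · show ∀ᶠ n in UF, ((Function.Injective e ∧ X.e j < 1 / ((i : ℝ) + 1)) →
      ((w j).W.F n).pb (fun ω => |TR.ev (X.dt w j e) n ω| ≤ (w j).W.dl (1 / ((i : ℝ) + 1)) n) ≤
        X.e j + 1 / ((j : ℝ) + 1))
    by_cases hc : Function.Injective e ∧ X.e j < 1 / ((i : ℝ) + 1)
    · have h1 := hw j e hc.1
      rw [← dt_mk] at h1
      have h2 : Bg (QS.mk (X.dt w j e)) (X.e j) := h1
      have h3 := h2.of_mk hc.2
      have h4 : X.e j < X.e j + 1 / ((j : ℝ) + 1) := by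
        have : (0 : ℝ) < 1 / ((j : ℝ) + 1) := by positivity
        linarith
      have h5 := eventually_lt_of_ul_lt (UB_pr _) (h3.trans_lt h4)
      exact h5.mono fun n hn _ => hn.le
    · exact Eventually.of_forall fun n h => absurd h hc
  · exact hΦ g j

end

theorem st_of {S : Sp} {f g : Fin (d + 1) ⊕ Unit → QS S} (h : f = g) (v : Fin (d + 1) → QS S) (w : CQ S f N)
    (hw : ∀ e : Fin (d + 1) → Fin (N + 1), Function.Injective e →
      Big (Matrix.of fun i j => (w.p (e i)).qs (v j)).det 0) :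
    ∃ w : CQ S g N, ∀ e : Fin (d + 1) → Fin (N + 1), Function.Injective e →
      Big (Matrix.of fun i j => (w.p (e i)).qs (v j)).det 0 := by
  subst h
  exact ⟨w, hw⟩

theorem e_tend (s : Slow X.D) : Tendsto (fun n => X.e (s.J n)) UF (𝓝 0) := X.he.comp s.tend

/-- FORWARD DIAGONAL: the diagonal of flat corners with errors tending to `0` is an exact flat corner -/
theorem fwd {γ : Type} [Countable γ] (Φ : γ → ℕ → ℕ → Prop) (hΦ : ∀ g j, ∀ᶠ n in UF, Φ g j n) :
    ∃ s : Slow X.D, CorH (fcOf s.qf) N X.ρ 0 ∧ ∀ g, ∀ᶠ n in UF, Φ g (s.J n) n := by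
  classical
  choose w hw using fun j => (X.H j).st
  obtain ⟨s', hs'⟩ := exists_Slow (X.Q w).D' (X.E w Φ) (X.E_ev Φ hΦ hw)
  obtain ⟨s, hs⟩ : ∃ s, s = (X.Q w).toS s' (fun c => hs' (Sum.inl c)) := ⟨_, rfl⟩
  have hsJ : s.J = s'.J := by rw [hs]; rfl
  have he := X.e_tend s
  have lim : ∀ u v : Finset (FI d k), Tendsto (fun n => h (u.sup fun a => QS.dg (QS.mk (X.f a (s.J n))) 1)
      (v.sup fun a => QS.dg (QS.mk (X.f a (s.J n))) 1)) UF
      (𝓝 (h (u.sup fun a => QS.dg (s.qf a) 1) (v.sup fun a => QS.dg (s.qf a) 1))) := tendsto_h_gs s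
  have cn := X.cns s
  refine ⟨s, ⟨?_, ?_, ?_, ?_, ?_, ?_⟩, ?_⟩
  · have h1 := lim {FI.t} (sA d k)
    rw [e_T, e_A] at h1
    have h2 : Tendsto (fun n => 1 - X.e (s.J n)) UF (𝓝 (1 - 0)) := he.const_sub 1
    refine le_of_tendsto_of_tendsto h2 h1 (Eventually.of_forall fun n => ?_)
    have h3 := (X.H (s.J n)).ht
    beta_reduce
    rw [e_T (F := fun a => QS.mk (X.f a (s.J n))), e_A (F := fun a => QS.mk (X.f a (s.J n)))]
    exact h3
  · have h1 := lim (sF d k) (sL d k)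
    rw [e_F, e_L] at h1
    refine le_of_tendsto_of_tendsto h1 he (Eventually.of_forall fun n => ?_)
    have h3 := (X.H (s.J n)).hF
    beta_reduce
    rw [e_F (F := fun a => QS.mk (X.f a (s.J n))), e_L (F := fun a => QS.mk (X.f a (s.J n)))]
    exact h3
  · have h1 := (lim (sX d k) {FI.t}).sub (lim (sX d k) (sYZT d k))
    rw [e_X, e_T, e_YZT cn] at h1
    rw [I_eq]
    refine le_of_tendsto_of_tendsto h1 he (Eventually.of_forall fun n => ?_)
    have h3 := (X.H (s.J n)).hi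
    rw [I_eq] at h3
    beta_reduce
    rw [e_X (F := fun a => QS.mk (X.f a (s.J n))), e_T (F := fun a => QS.mk (X.f a (s.J n))),
      e_YZT (X.cn (s.J n))]
    exact h3
  · have h1 := lim (sY d k) {FI.t}
    rw [e_Y cn, e_T] at h1
    have h2 : Tendsto (fun n => (d : ℝ) - X.e (s.J n)) UF (𝓝 (d - 0)) := he.const_sub _
    refine le_of_tendsto_of_tendsto h2 h1 (Eventually.of_forall fun n => ?_)
    have h3 := (X.H (s.J n)).hy
    beta_reduce
    rw [e_Y (X.cn (s.J n)), e_T (F := fun a => QS.mk (X.f a (s.J n)))]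
    exact h3
  · have h1 : UnS (fcOf s.qf).z (fcOf s.qf).iQ 0 X.ρ := by
      apply uns_of_rob
      intro a b h1 h2 h3
      have h1' : (0 : ℚ) ≤ a := by exact_mod_cast h1
      have h2' : a ≤ b := by exact_mod_cast h2
      have h3' : b ≤ 1 := by exact_mod_cast h3
      have h4 : Slow.RobLe (({Sum.inr (FI.z, b)} : Finset (Empty ⊕ (FI d k × ℚ))).sup fun g => cl (s.gen g))
          ((un d k a).sup fun g => cl (s.gen g)) ((1 - X.ρ) * ((b : ℝ) - a)) := by
        apply s.robLe (η := fun j => (1 - X.ρ) * ((b : ℝ) - a) + X.e j)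
        · have := X.he.const_add ((1 - X.ρ) * ((b : ℝ) - a))
          rwa [add_zero] at this
        · intro i
          have h5 := hs' (Sum.inr (Sum.inr (Sum.inr (Sum.inl (a, b, i)))))
          have h6 : (0 : ℝ) < 1 / ((i : ℝ) + 1) := by positivity
          rw [← hsJ] at h5
          filter_upwards [h5, he.eventually (gt_mem_nhds h6)] with n h7 h8
          exact h7 ⟨h1', h2', h3', h8.le⟩
      rw [Finset.sup_singleton, X.gen_z' s h3', X.sup_un_s s (h2'.trans h3')] at h4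
      exact h4
    intro T p E hE _ a b ha hab hb
    rw [add_zero]
    exact h1 T p E hE a b ha hab hb
  · subst hs
    refine st_of cn.fB _ (CD.cq (Q := X.Q w) s' (fun c => hs' (Sum.inl c)) (iB d k) (u d k) (X.sup_u_s _)
      (fun i i' b => hs' (Sum.inr (Sum.inl (i, i', b)))) (fun C => hs' (Sum.inr (Sum.inr (Sum.inl C))))) ?_
    intro e hinj
    have h1 : (Matrix.of fun i l => ((CD.cq (Q := X.Q w) s' (fun c => hs' (Sum.inl c)) (iB d k) (u d k) (X.sup_u_s _)
        (fun i i' b => hs' (Sum.inr (Sum.inl (i, i', b)))) (fun C => hs' (Sum.inr (Sum.inr (Sum.inl C))))).p (e i)).qs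
        ((fcOf ((X.Q w).toS s' (fun c => hs' (Sum.inl c))).qf).v l)).det =
        QS.mk ((Matrix.of fun i l => s'.fn (e i, iV d k l)).det) := by
      rw [RingHom.map_det]
      congr 1
      funext i l
      have h2 : (fcOf ((X.Q w).toS s' (fun c => hs' (Sum.inl c))).qf).v l =
        ((X.Q w).toS s' (fun c => hs' (Sum.inl c))).qf (iV d k l) := (congrFun cn.v l).symm
      show (CD.pj (Q := X.Q w) s' (fun c => hs' (Sum.inl c)) (e i)).qs
        ((fcOf ((X.Q w).toS s' (fun c => hs' (Sum.inl c))).qf).v l) = s'.qf (e i, iV d k l)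
      rw [h2]
      rfl
    rw [h1]
    have h3 : Bg (QS.mk ((Matrix.of fun i l => s'.fn (e i, iV d k l)).det)) 0 := by
      apply bg_mk
      intro δ hδ
      obtain ⟨i, hi⟩ := exists_nat_one_div_lt hδ
      have h4 := hs' (Sum.inr (Sum.inr (Sum.inr (Sum.inr (Sum.inl (e, i))))))
      have h5 : Tendsto (fun n => X.e (s'.J n) + 1 / ((s'.J n : ℝ) + 1)) UF (𝓝 (0 + 0)) := he.add (one_div_J s'.tend)
      rw [add_zero] at h5
      have h6 : (0 : ℝ) < 1 / ((i : ℝ) + 1) := by positivity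
      refine le_of_tendsto_of_tendsto (ul_tendsto (UB_pr _)) h5 ?_
      filter_upwards [h4, he.eventually (gt_mem_nhds h6)] with n h7 h8
      refine le_trans ?_ (h7 ⟨hinj, h8⟩)
      apply FSp.pb_mono
      intro ω _ h9
      have h10 : TR.ev (Matrix.of fun i l => s'.fn (e i, iV d k l)).det n ω = TR.ev (X.dt w (s'.J n) e) n ω := by
        have h11 : TR.evh n ω (Matrix.of fun i l => s'.fn (e i, iV d k l)).det =
            TR.evh (S := (w (s'.J n)).W) n ω (X.dt w (s'.J n) e) := by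
          unfold dt
          rw [RingHom.map_det, RingHom.map_det]
          rfl
        exact h11
      rw [← h10]
      exact h9.trans (s'.sp.dl_anti hi.le n)
    exact h3
  · intro g
    have h1 := hs' (Sum.inr (Sum.inr (Sum.inr (Sum.inr (Sum.inr g)))))
    rw [← hsJ] at h1
    exact h1

end SF

end

end Pool.Agent.Helper60.CS
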