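import Pool.Agent.Helper60.CS.FlatE

/-! From exact to approximate flat corners. -/

set_option autoImplicit false

namespace Pool.Agent.Helper60.CS

open Finset Filter Topology Pool.Agent.Helper69.RK Pool.Agent.Helper40.EL Pool.Agent.Helper31.EC
  Pool.Agent.Helper31.EC.Sp QS
open Pool.Agent.Helper40.NSK (FC CorH UnE Big)

noncomputable section

variable {d k N : ℕ}

/-- tame functions with the consistency relations, from tame functions for the corner -/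
def fiOf {S : Sp} (t : TR S) (a x : Fin d → TR S) (c : Fin (k + 1) → TR S) : FI d k → TR S
  | FI.one => 1
  | FI.t => t
  | FI.a i => a i
  | FI.x i => x i
  | FI.c i => c i
  | FI.y i => a i + t * x i
  | FI.z => c 0 + ∑ i : Fin k, c i.succ * t ^ (i.1 + 1)

theorem fcOf_fiOf {S : Sp} (t : TR S) (a x : Fin d → TR S) (c : Fin (k + 1) → TR S) :
    (fcOf fun b => QS.mk (fiOf t a x c b)) =
      ⟨QS.mk t, fun i => QS.mk (a i), fun i => QS.mk (x i), QS.mk (c 0), fun j => QS.mk (c j.succ)⟩ := rfl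

/-- the sequence of corners -/
def sfOf (S : ℕ → Sp) (t : ∀ j, TR (S j)) (a x : ∀ j, Fin d → TR (S j)) (c : ∀ j, Fin (k + 1) → TR (S j)) (ρ : ℝ)
    (e : ℕ → ℝ) (he : Tendsto e atTop (𝓝 0))
    (H : ∀ j, CorH (fcOf fun b => QS.mk (fiOf (t j) (a j) (x j) (c j) b)) N ρ (e j)) : SF d k N where
  S := S
  f := fun b j => fiOf (t j) (a j) (x j) (c j) b
  fone := fun _ => rfl
  fy := fun _ _ => rfl
  fz := fun _ => rfl
  ρ := ρ
  e := e
  he := he
  H := H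

/-- representatives of a corner -/
theorem exists_rep {S : Sp} (c : FC S d k) : ∃ (t : TR S) (a x : Fin d → TR S) (b : Fin (k + 1) → TR S),
    (fcOf fun n => QS.mk (fiOf t a x b n)) = c := by
  refine ⟨QS.rep c.t, fun i => QS.rep (c.a i), fun i => QS.rep (c.x i),
    Fin.cons (QS.rep c.b) fun j => QS.rep (c.C j), ?_⟩
  rw [fcOf_fiOf]
  obtain ⟨t, a, x, b, C⟩ := c
  simp only [Fin.cons_zero, Fin.cons_succ, QS.mk_rep]

namespace SF

variable (X : SF d k N)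

theorem fin_A (j n : ℕ) : (fsup (gs (sA d k)) fun g => X.D.gen g j).1 n = Slow.gp X.D (gs (sA d k)) j n := rfl

/-- the corners of the sequence have sheets if the finite form holds -/
theorem shl_D {K : ℕ} {v δ ε : ℝ} (hδ : 0 ≤ δ) (hv : v ≤ 1) (j : ℕ)
    (h : ∀ᶠ n in UF, ShF ((X.S j).F n) (fun i => TR.ev (X.f (iB d k (Sum.inl i)) j) n) (TR.ev (X.f FI.z j) n)
      (Slow.gp X.D (gs (sA d k)) j n) (Slow.gp X.D (gs (sQ d k)) j n) K v δ ε) :
    ShL (fcOf fun a => QS.mk (X.f a j)).q (fcOf fun a => QS.mk (X.f a j)).z (fcOf fun a => QS.mk (X.f a j)).iA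
      (fcOf fun a => QS.mk (X.f a j)).iQ K v δ ε := by
  have h1 := shl_of_fin (S := X.S j) (fun i => X.f (iB d k (Sum.inl i)) j) (X.f FI.z j)
    (fsup (gs (sA d k)) fun g => X.D.gen g j) (fsup (gs (sQ d k)) fun g => X.D.gen g j) hδ hv h
  rw [cl_fsup, cl_fsup, sup_gs_D, sup_gs_D, e_A, e_Q (X.cn j)] at h1
  have h2 : (fun i => QS.mk (X.f (iB d k (Sum.inl i)) j)) = (fcOf fun a => QS.mk (X.f a j)).q :=
    funext fun i => (X.ev_fB j (Sum.inl i)).symm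
  have h3 : QS.mk (X.f FI.z j) = (fcOf fun a => QS.mk (X.f a j)).z := (X.ev_fB j (Sum.inr ())).symm
  rw [h2, h3] at h1
  exact h1

/-- the finite form holds along the diagonal if the diagonal has an exact sheet -/
theorem fin_s (s : Slow X.D) {K : ℕ} {v δ ε : ℝ} (hδ : 0 < δ) (hε : 0 < ε) (hv : v ≤ 1)
    (h : ShL (fcOf s.qf).q (fcOf s.qf).z (fcOf s.qf).iA (fcOf s.qf).iQ K v 0 0) :
    ∀ᶠ n in UF, ShF ((X.S (s.J n)).F n) (fun i => TR.ev (X.f (iB d k (Sum.inl i)) (s.J n)) n)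
      (TR.ev (X.f FI.z (s.J n)) n) (Slow.gp X.D (gs (sA d k)) (s.J n) n) (Slow.gp X.D (gs (sQ d k)) (s.J n) n)
      K v δ ε := by
  have cn := X.cns s
  have h2 : (fun i => QS.mk (s.fn (iB d k (Sum.inl i)))) = (fcOf s.qf).q :=
    funext fun i => congrFun cn.fB (Sum.inl i)
  have h3 : QS.mk (s.fn FI.z) = (fcOf s.qf).z := congrFun cn.fB (Sum.inr ())
  have h4 := fin_of_shl (S := s.sp) (fun i => s.fn (iB d k (Sum.inl i))) (s.fn FI.z)
    (fsup (gs (sA d k)) fun g => s.gen g) (fsup (gs (sQ d k)) fun g => s.gen g) hδ hε hv (K := K) (by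
      rw [cl_fsup, cl_fsup, sup_gs_s, sup_gs_s, e_A, e_Q cn, h2, h3]
      exact h)
  exact h4

end SF

/-- FROM EXACT TO APPROXIMATE CORNERS -/
theorem flat_approx {K : ℕ} {v : ℝ} (hv : v ≤ 1) {ρ : ℝ}
    (hex : ∀ (S : Sp) (c : FC S d k), CorH c N ρ 0 → ShL c.q c.z c.iA c.iQ K v 0 0) {δ ε : ℝ} (hδ : 0 < δ)
    (hε : 0 < ε) : ∃ ε₀ : ℝ, 0 < ε₀ ∧ ∀ (S : Sp) (c : FC S d k), CorH c N ρ ε₀ → ShL c.q c.z c.iA c.iQ K v δ ε := by
  classical
  by_contra hcon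
  push Not at hcon
  have h1 : ∀ n : ℕ, ∃ (S : Sp) (t : TR S) (a x : Fin d → TR S) (b : Fin (k + 1) → TR S),
      CorH (fcOf fun n => QS.mk (fiOf t a x b n)) N ρ (1 / ((n : ℝ) + 1)) ∧
      ¬ ShL (fcOf fun n => QS.mk (fiOf t a x b n)).q (fcOf fun n => QS.mk (fiOf t a x b n)).z
        (fcOf fun n => QS.mk (fiOf t a x b n)).iA (fcOf fun n => QS.mk (fiOf t a x b n)).iQ K v δ ε := by
    intro n
    obtain ⟨S, c, h2, h3⟩ := hcon (1 / ((n : ℝ) + 1)) (by positivity)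
    obtain ⟨t, a, x, b, rfl⟩ := exists_rep c
    exact ⟨S, t, a, x, b, h2, h3⟩
  choose S t a x b hc hn using h1
  obtain ⟨X, hX⟩ : ∃ X : SF d k N, X = sfOf S t a x b ρ (fun n => 1 / ((n : ℝ) + 1))
      tendsto_one_div_add_atTop_nhds_zero_nat hc := ⟨_, rfl⟩
  have hΦ : ∀ (g : Unit) (j : ℕ), ∀ᶠ n in UF, ¬ ShF ((X.S j).F n)
      (fun i => TR.ev (X.f (iB d k (Sum.inl i)) j) n) (TR.ev (X.f FI.z j) n)
      (Slow.gp X.D (gs (sA d k)) j n) (Slow.gp X.D (gs (sQ d k)) j n) K v δ ε := by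
    intro _ j
    apply UF_not
    intro h2
    have h3 := X.shl_D hδ.le hv j h2
    subst hX
    exact hn j h3
  obtain ⟨s, h2, h3⟩ := X.fwd (fun _ j n => ¬ ShF ((X.S j).F n)
      (fun i => TR.ev (X.f (iB d k (Sum.inl i)) j) n) (TR.ev (X.f FI.z j) n)
      (Slow.gp X.D (gs (sA d k)) j n) (Slow.gp X.D (gs (sQ d k)) j n) K v δ ε) hΦ
  have hρ : X.ρ = ρ := by rw [hX]; rfl
  rw [hρ] at h2
  have h4 := X.fin_s s hδ hε hv (hex _ _ h2)
  obtain ⟨n, h5, h6⟩ := (h4.and (h3 ())).exists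
  exact h6 h5

end

end Pool.Agent.Helper60.CS
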