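import Pool.Agent.Helper60.CS.Los
import Pool.Agent.Helper31.EC.Cpy

/-! Exact entropy calculus: functions to full precision of a diagonal: identities, agreement, digits, unsaturated and
rich functions. -/

set_option autoImplicit false

namespace Pool.Agent.Helper60.CS

open Finset Filter Topology Pool.Agent.Helper69.RK Pool.Agent.Helper40.EL Pool.Agent.Helper31.EC
  Pool.Agent.Helper31.EC.Sp

noncomputable section

namespace Slow

variable {κ ι : Type} {D : DI κ ι} (s : Slow D)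

/-- the functions of the diagonal to full precision -/
def qf (a : κ) : QS s.sp := QS.mk (s.fn a)

theorem qf_dg (a : κ) {q : ℚ} (hq : (q : ℝ) ≤ 1) : QS.dg (s.qf a) q = cl (s.gen (Sum.inr (a, q))) := by
  rw [qf, QS.dg_mk _ hq, s.gen_inr]

theorem fn_congr {a b : κ} (h : ∀ j, D.f a j = D.f b j) : s.fn a = s.fn b := by
  apply Subtype.ext
  funext k ω
  show (D.f a (s.J k)).1 k ω = (D.f b (s.J k)).1 k ω
  rw [h]

theorem fn_add {a b c : κ} (h : ∀ j, D.f c j = D.f a j + D.f b j) : s.fn c = s.fn a + s.fn b := by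
  apply Subtype.ext
  funext k ω
  show (D.f c (s.J k)).1 k ω = _
  rw [h]
  rfl

theorem fn_sub {a b c : κ} (h : ∀ j, D.f c j = D.f a j - D.f b j) : s.fn c = s.fn a - s.fn b := by
  apply Subtype.ext
  funext k ω
  show (D.f c (s.J k)).1 k ω = _
  rw [h]
  rfl

theorem fn_mul {a b c : κ} (h : ∀ j, D.f c j = D.f a j * D.f b j) : s.fn c = s.fn a * s.fn b := by
  apply Subtype.ext
  funext k ω
  show (D.f c (s.J k)).1 k ω = _
  rw [h]
  rfl

/-- finite form of agreement, as a condition on slow sequences -/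
def AgC (D : DI κ ι) (a b : κ) (r : ℕ → ℝ) (j k : ℕ) : Prop :=
  ∃ K : ℝ, 0 ≤ K ∧ Real.logb 2 (K + 2) / ((D.S j).F k).n ≤ 1 / ((j : ℝ) + 1) ∧
    ((D.S j).F k).pb (fun ω => ¬ |(D.f a j).1 k ω - (D.f b j).1 k ω| ≤ K * (D.S j).dl (r j) k) ≤ 1 / ((j : ℝ) + 1)

theorem AgC_ev {a b : κ} {r : ℕ → ℝ} {j : ℕ} (h : TR.Ag (r j) (D.f a j) (D.f b j)) : ∀ᶠ k in UF, AgC D a b r j k := by
  obtain ⟨E, K, hE, hK, hh⟩ := h
  have h2 : (0 : ℝ) < 1 / ((j : ℝ) + 1) := by positivity
  filter_upwards [hh, hK.1, hK.2.eventually (gt_mem_nhds h2), hE.eventually (gt_mem_nhds h2)] with k h3 h4 h5 h6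
  refine ⟨K k, h4, h5.le, le_trans ?_ h6.le⟩
  apply FSp.pb_mono
  intro ω hω h7 h8
  exact h7 (h3 ω hω h8)

/-- AGREEMENT passes to the diagonal -/
theorem fn_ag {a b : κ} {r : ℕ → ℝ} {ρ : ℝ} (hr : Tendsto r atTop (𝓝 ρ)) (h : ∀ᶠ k in UF, AgC D a b r (s.J k) k) :
    TR.Ag ρ (s.fn a) (s.fn b) := by
  classical
  obtain ⟨K, hK⟩ : ∃ K : ℕ → ℝ, ∀ k, AgC D a b r (s.J k) k → 0 ≤ K k ∧
      Real.logb 2 (K k + 2) / ((D.S (s.J k)).F k).n ≤ 1 / ((s.J k : ℝ) + 1) ∧
      ((D.S (s.J k)).F k).pb (fun ω => ¬ |(D.f a (s.J k)).1 k ω - (D.f b (s.J k)).1 k ω| ≤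
        K k * (D.S (s.J k)).dl (r (s.J k)) k) ≤ 1 / ((s.J k : ℝ) + 1) := by
    refine ⟨fun k => if h : AgC D a b r (s.J k) k then h.choose else 0, fun k hk => ?_⟩
    beta_reduce
    rw [dif_pos hk]
    exact hk.choose_spec
  refine ⟨fun k ω => |(D.f a (s.J k)).1 k ω - (D.f b (s.J k)).1 k ω| ≤ K k * (D.S (s.J k)).dl (r (s.J k)) k,
    fun k => K k * 2 ^ (max 0 (ρ - r (s.J k)) * (s.sp.F k).n), ?_, ⟨?_, ?_⟩, ?_⟩
  · refine squeeze_zero' (Eventually.of_forall fun k => mass_res_nonneg (S := s.sp) k _) ?_ (one_div_J s.tend)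
    filter_upwards [h] with k hk using (hK k hk).2.2
  · filter_upwards [h] with k hk
    exact mul_nonneg (hK k hk).1 (by positivity)
  · have h1 : Tendsto (fun k => max 0 (ρ - r (s.J k))) UF (𝓝 0) := by
      have h2 : Tendsto (fun k => ρ - r (s.J k)) UF (𝓝 (ρ - ρ)) := (hr.comp s.tend).const_sub ρ
      rw [sub_self] at h2
      have h3 := tendsto_const_nhds (x := (0 : ℝ)) (f := UF) |>.max h2
      rwa [max_self] at h3
    have h2 := (one_div_J s.tend).add h1
    rw [add_zero] at h2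
    refine squeeze_zero' ?_ ?_ h2
    · filter_upwards [h] with k hk
      apply div_nonneg (Real.logb_nonneg (by norm_num) _) (s.sp.F k).pos.le
      have := mul_nonneg (hK k hk).1 (show (0 : ℝ) ≤ 2 ^ (max 0 (ρ - r (s.J k)) * (s.sp.F k).n) by positivity)
      linarith
    · filter_upwards [h] with k hk
      have hn := (s.sp.F k).pos
      have e1 : (1 : ℝ) ≤ 2 ^ (max 0 (ρ - r (s.J k)) * (s.sp.F k).n) :=
        Real.one_le_rpow (by norm_num) (mul_nonneg (le_max_left _ _) hn.le)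
      have h3 := (hK k hk).1
      have e2 : K k * 2 ^ (max 0 (ρ - r (s.J k)) * (s.sp.F k).n) + 2 ≤
          (K k + 2) * 2 ^ (max 0 (ρ - r (s.J k)) * (s.sp.F k).n) := by nlinarith
      have e3 : Real.logb 2 (K k * 2 ^ (max 0 (ρ - r (s.J k)) * (s.sp.F k).n) + 2) ≤
          Real.logb 2 (K k + 2) + max 0 (ρ - r (s.J k)) * (s.sp.F k).n := by
        refine (Real.logb_le_logb_of_le (by norm_num) ?_ e2).trans ?_
        · have := mul_nonneg h3 (show (0 : ℝ) ≤ 2 ^ (max 0 (ρ - r (s.J k)) * (s.sp.F k).n) by positivity)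
          linarith
        · rw [Real.logb_mul (by linarith) (by positivity), Real.logb_rpow (by norm_num) (by norm_num)]
      have e4 : Real.logb 2 (K k * 2 ^ (max 0 (ρ - r (s.J k)) * (s.sp.F k).n) + 2) / (s.sp.F k).n ≤
          Real.logb 2 (K k + 2) / (s.sp.F k).n + max 0 (ρ - r (s.J k)) := by
        rw [div_le_iff₀ hn, add_mul, div_mul_cancel₀ _ hn.ne']
        exact e3
      exact e4.trans (add_le_add (hK k hk).2.1 le_rfl)
  · filter_upwards [h] with k hk ω _ hE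
    show |(D.f a (s.J k)).1 k ω - (D.f b (s.J k)).1 k ω| ≤ _
    refine le_trans hE ?_
    rw [mul_assoc]
    apply mul_le_mul_of_nonneg_left _ (hK k hk).1
    show (2 : ℝ) ^ (-(r (s.J k) * ((D.S (s.J k)).F k).n)) ≤ 2 ^ (max 0 (ρ - r (s.J k)) * (s.sp.F k).n) * 2 ^ (-(ρ * (s.sp.F k).n))
    rw [← Real.rpow_add (by norm_num : (0 : ℝ) < 2)]
    apply Real.rpow_le_rpow_of_exponent_le (by norm_num)
    have hn := (s.sp.F k).pos
    have e1 : ((D.S (s.J k)).F k).n = (s.sp.F k).n := rfl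
    rw [e1]
    have e2 := le_max_right (0 : ℝ) (ρ - r (s.J k))
    nlinarith

/-- functions which agree to full precision in the spaces are equal in the diagonal -/
theorem qf_eq {a b : κ} {r : ℕ → ℝ} {ρ : ℝ} (hρ : 1 ≤ ρ) (hr : Tendsto r atTop (𝓝 ρ))
    (h : ∀ᶠ k in UF, AgC D a b r (s.J k) k) : s.qf a = s.qf b := by
  have h1 := s.fn_ag hr h
  refine QS.mk_eq.mpr ?_
  obtain ⟨E, K, hE, hK, hh⟩ := h1
  refine ⟨E, K, hE, hK, ?_⟩
  filter_upwards [hh, hK.1] with k h2 h3 ω a b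
  exact (h2 ω a b).trans (mul_le_mul_of_nonneg_left (s.sp.dl_anti hρ k) h3)

end Slow

theorem RobLe.mono {S : Sp} {x x' y y' : S.L} {b b' : ℝ} (h : Slow.RobLe x y b) (hx : x' ≤ x) (hy : y ≤ y')
    (hb : b ≤ b') : Slow.RobLe x' y' b' := by
  intro T p E hE
  exact ((h_mono (restL_mono E hE (p.map_mono hx))).trans (h_anti (restL_mono E hE (p.map_mono hy)))).trans
    ((h T p E hE).trans hb)

theorem RobGe.mono {S : Sp} {x x' y y' : S.L} {b b' : ℝ} (h : Slow.RobGe x y b) (hx : x ≤ x') (hy : y' ≤ y)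
    (hb : b' ≤ b) : Slow.RobGe x' y' b' := by
  intro T p E hE
  exact (hb.trans (h T p E hE)).trans ((h_mono (restL_mono E hE (p.map_mono hx))).trans
    (h_anti (restL_mono E hE (p.map_mono hy))))

/-- digits are Lipschitz on all events of all extensions -/
theorem RobLe_dg {S : Sp} (z : QS S) {a b : ℝ} (hab : a ≤ b) (A : S.L) :
    Slow.RobLe (QS.dg z b) (QS.dg z a ⊔ A) (b - a) := by
  intro T p E hE
  rw [p.map_sup, restL_sup]
  refine (h_anti le_sup_left).trans ?_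
  rw [← p.qs_dg, ← p.qs_dg, ← QS.rest_dg, ← QS.rest_dg]
  exact QS.h_dg_dg _ hab

/-- unsaturated functions from rational levels -/
theorem uns_of_rob {S : Sp} {z : QS S} {A : S.L} {a0 c : ℝ}
    (h : ∀ a b : ℚ, a0 ≤ a → (a : ℝ) ≤ b → (b : ℝ) ≤ 1 →
      Slow.RobLe (QS.dg z b) (QS.dg z a ⊔ A) ((1 - c) * ((b : ℝ) - a))) : UnS z A a0 c := by
  intro T p E hE a b h1 h2 h3
  rcases h2.eq_or_lt with h4 | h4
  · subst h4
    rw [h_zero, sub_self, mul_zero]
    exact restL_mono E hE (p.map_mono le_sup_left)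
  apply le_of_forall_pos_le_add
  intro ε hε
  -- `η` small
  obtain ⟨η, hη0, hη1, hη2⟩ : ∃ η : ℝ, 0 < η ∧ η ≤ b - a ∧ (1 + |1 - c|) * η ≤ ε := by
    refine ⟨min (b - a) (ε / (1 + |1 - c|)), lt_min (by linarith) (by positivity), min_le_left _ _, ?_⟩
    have h5 : min (b - a) (ε / (1 + |1 - c|)) ≤ ε / (1 + |1 - c|) := min_le_right _ _
    have h6 : (0 : ℝ) < 1 + |1 - c| := by positivity
    calc (1 + |1 - c|) * min (b - a) (ε / (1 + |1 - c|)) ≤ (1 + |1 - c|) * (ε / (1 + |1 - c|)) :=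
          mul_le_mul_of_nonneg_left h5 h6.le
      _ = ε := by field_simp
  obtain ⟨a', ha1, ha2⟩ := exists_rat_btwn (show a < a + η / 2 by linarith)
  obtain ⟨b', hb1, hb2, hb3⟩ : ∃ b' : ℚ, b ≤ b' ∧ (b' : ℝ) ≤ b + η / 2 ∧ (b' : ℝ) ≤ 1 := by
    rcases h3.eq_or_lt with h5 | h5
    · exact ⟨1, by rw [h5]; simp, by rw [h5]; push_cast; linarith, by simp⟩
    · obtain ⟨q, hq1, hq2⟩ := exists_rat_btwn (show b < min 1 (b + η / 2) from lt_min h5 (by linarith))
      exact ⟨q, hq1.le, hq2.le.trans (min_le_right _ _), hq2.le.trans (min_le_left _ _)⟩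
  have h5 := h a' b' (by linarith) (by linarith) hb3 T p E hE
  have h6 := RobLe_dg z (show a ≤ (a' : ℝ) by linarith) A T p E hE
  rw [p.map_sup, restL_sup] at h5 h6 ⊢
  have h7 := h_triangle (restL E hE (p.map (QS.dg z b))) (restL E hE (p.map (QS.dg z a')))
    (restL E hE (p.map (QS.dg z a)) ⊔ restL E hE (p.map A))
  have h8 : Pool.Agent.Helper31.EC.h (restL E hE (p.map (QS.dg z b)))
      (restL E hE (p.map (QS.dg z a')) ⊔ (restL E hE (p.map (QS.dg z a)) ⊔ restL E hE (p.map A))) ≤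
      Pool.Agent.Helper31.EC.h (restL E hE (p.map (QS.dg z b')))
        (restL E hE (p.map (QS.dg z a')) ⊔ restL E hE (p.map A)) := by
    refine (h_mono (restL_mono E hE (p.map_mono (QS.dg_mono z hb1)))).trans (h_anti ?_)
    exact sup_le_sup_left le_sup_right _
  have h9 : (1 - c) * ((b' : ℝ) - a') ≤ (1 - c) * (b - a) + |1 - c| * η := by
    have e1 : (1 - c) * ((b' : ℝ) - a') - (1 - c) * (b - a) = (1 - c) * ((b' - b) - (a' - a)) := by ring
    have e2 : (1 - c) * ((b' - b) - ((a' : ℝ) - a)) ≤ |1 - c| * |(b' - b) - ((a' : ℝ) - a)| := by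
      rw [← abs_mul]; exact le_abs_self _
    have e3 : |(b' - b) - ((a' : ℝ) - a)| ≤ η := by
      rw [abs_le]; constructor <;> linarith
    have e4 := mul_le_mul_of_nonneg_left e3 (abs_nonneg (1 - c))
    linarith
  have h10 : (1 + |1 - c|) * η = η + |1 - c| * η := by ring
  linarith

/-- rich functions from rational levels -/
theorem rich_of_rob {S : Sp} {u : QS S} {A : S.L} {g : ℝ} (hg : 0 ≤ g)
    (h : ∀ q : ℚ, (0 : ℝ) ≤ q → (q : ℝ) ≤ 1 → Slow.RobGe (QS.dg u q) A (g * q)) {r : ℝ} (h0 : 0 ≤ r) (h1 : r ≤ 1) :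
    Slow.RobGe (QS.dg u r) A (g * r) := by
  intro T p E hE
  apply le_of_forall_pos_le_add
  intro ε hε
  rcases h0.eq_or_lt with h2 | h2
  · rw [← h2, mul_zero]
    have := h_nonneg (restL E hE (p.map (QS.dg u 0))) (restL E hE (p.map A))
    linarith
  · obtain ⟨q, hq1, hq2⟩ := exists_rat_btwn (show max 0 (r - ε / (g + 1)) < r from
      max_lt h2 (by have : 0 < ε / (g + 1) := by positivity
                    linarith))
    have h3 := h q ((le_max_left _ _).trans hq1.le) (hq2.le.trans h1) T p E hE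
    have h4 : Pool.Agent.Helper31.EC.h (restL E hE (p.map (QS.dg u q))) (restL E hE (p.map A)) ≤
        Pool.Agent.Helper31.EC.h (restL E hE (p.map (QS.dg u r))) (restL E hE (p.map A)) :=
      h_mono (restL_mono E hE (p.map_mono (QS.dg_mono u hq2.le)))
    have h5 : r - ε / (g + 1) ≤ q := (le_max_right _ _).trans hq1.le
    have h6 : g * r ≤ g * q + ε := by
      have e1 := mul_le_mul_of_nonneg_left h5 hg
      have e2 : g * (ε / (g + 1)) ≤ ε := by
        rw [mul_div_assoc', div_le_iff₀ (by linarith)]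
        nlinarith
      nlinarith
    linarith

end

end Pool.Agent.Helper60.CS
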