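import Pool.Agent.Helper60.CS.Dgs
import Pool.Agent.Helper31.EC.DensS

/-! Exact entropy calculus: finite form of bounds which hold on all events of all extensions. -/

set_option autoImplicit false

namespace Pool.Agent.Helper60.CS

open Finset Filter Topology Pool.Agent.Helper69.RK Pool.Agent.Helper40.EL Pool.Agent.Helper31.EC
  Pool.Agent.Helper31.EC.Sp

noncomputable section

/-- laws with density at most `1 / δ` -/
structure Cdn (F : FSp) (δ : ℝ) (ν : F.Ω → ℝ) : Prop where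
  nn : ∀ ω, 0 ≤ ν ω
  ms : mass ν = 1
  le : ∀ ω, δ * ν ω ≤ F.μ ω

/-- robust upper bound of a conditional entropy -/
def RB (F : FSp) (δ η : ℝ) (A B : Setoid F.Ω) : Prop :=
  ∀ ν, Cdn F δ ν → CH ν (Quotient.mk A) (Quotient.mk (B ⊓ F.Z)) ≤ η * F.n

/-- robust lower bound of a conditional entropy -/
def RL (F : FSp) (δ η : ℝ) (A B : Setoid F.Ω) : Prop :=
  ∀ ν, Cdn F δ ν → η * F.n ≤ CH ν (Quotient.mk A) (Quotient.mk (B ⊓ F.Z))

theorem RB.mono {F : FSp} {δ δ' η η' : ℝ} {A B : Setoid F.Ω} (h : RB F δ η A B) (hδ : δ ≤ δ') (hη : η ≤ η') :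
    RB F δ' η' A B := by
  intro ν hν
  refine (h ν ⟨hν.nn, hν.ms, fun ω => ?_⟩).trans (mul_le_mul_of_nonneg_right hη F.pos.le)
  exact (mul_le_mul_of_nonneg_right hδ (hν.nn ω)).trans (hν.le ω)

theorem RL.mono {F : FSp} {δ δ' η η' : ℝ} {A B : Setoid F.Ω} (h : RL F δ η A B) (hδ : δ ≤ δ') (hη : η' ≤ η) :
    RL F δ' η' A B := by
  intro ν hν
  refine (mul_le_mul_of_nonneg_right hη F.pos.le).trans (h ν ⟨hν.nn, hν.ms, fun ω => ?_⟩)
  exact (mul_le_mul_of_nonneg_right hδ (hν.nn ω)).trans (hν.le ω)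

/-- extension by a coin -/
def coin (F : FSp) {δ : ℝ} {ν : F.Ω → ℝ} (h : Cdn F δ ν) (hδ : 0 ≤ δ) : FSp where
  Ω := F.Ω × Bool
  ft := inferInstance
  μ := fun p => bif p.2 then δ * ν p.1 else F.μ p.1 - δ * ν p.1
  nn := by
    rintro ⟨ω, _ | _⟩
    · exact sub_nonneg.mpr (h.le ω)
    · exact mul_nonneg hδ (h.nn ω)
  ms := by
    show ∑ p : F.Ω × Bool, (bif p.2 then δ * ν p.1 else F.μ p.1 - δ * ν p.1) = 1
    rw [Fintype.sum_prod_type]
    have h1 : ∀ ω : F.Ω, (∑ b : Bool, (bif b then δ * ν ω else F.μ ω - δ * ν ω)) = F.μ ω := by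
      intro ω
      rw [Fintype.sum_bool]
      show δ * ν ω + (F.μ ω - δ * ν ω) = F.μ ω
      ring
    rw [Finset.sum_congr rfl fun ω _ => h1 ω]
    exact F.ms
  Z := Setoid.comap Prod.fst F.Z
  n := F.n
  pos := F.pos

open Classical in
theorem coin_law (F : FSp) {δ : ℝ} {ν : F.Ω → ℝ} (h : Cdn F δ ν) (hδ : 0 ≤ δ) :
    push (Prod.fst : F.Ω × Bool → F.Ω) (coin F h hδ).μ = F.μ := by
  funext ω
  show (∑ p : F.Ω × Bool, if p.1 = ω then (bif p.2 then δ * ν p.1 else F.μ p.1 - δ * ν p.1) else 0) = F.μ ω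
  rw [Fintype.sum_prod_type]
  have h1 : ∀ ω' : F.Ω, (∑ b : Bool, if ω' = ω then (bif b then δ * ν ω' else F.μ ω' - δ * ν ω') else 0) =
      if ω' = ω then F.μ ω' else 0 := by
    intro ω'
    rw [Fintype.sum_bool]
    by_cases h2 : ω' = ω
    · rw [if_pos h2, if_pos h2, if_pos h2]
      show δ * ν ω' + (F.μ ω' - δ * ν ω') = F.μ ω'
      ring
    · rw [if_neg h2, if_neg h2, if_neg h2, add_zero]
  rw [Finset.sum_congr rfl fun ω' _ => h1 ω', Finset.sum_ite_eq' Finset.univ ω, if_pos (Finset.mem_univ ω)]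

/-- the projection -/
def coinp (F : FSp) {δ : ℝ} {ν : F.Ω → ℝ} (h : Cdn F δ ν) (hδ : 0 ≤ δ) : FPj (coin F h hδ) F where
  π := Prod.fst
  law := coin_law F h hδ
  hZ := fun _ _ _ _ => Iff.rfl

/-- the event -/
def heads (F : FSp) {δ : ℝ} {ν : F.Ω → ℝ} (h : Cdn F δ ν) (hδ : 0 ≤ δ) : (coin F h hδ).Ω → Prop :=
  fun p => p.2 = true

theorem res_heads (F : FSp) {δ : ℝ} {ν : F.Ω → ℝ} (h : Cdn F δ ν) (hδ : 0 ≤ δ) :
    res (coin F h hδ).μ (heads F h hδ) = fun p : F.Ω × Bool => bif p.2 then δ * ν p.1 else 0 := by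
  funext p
  obtain ⟨ω, _ | _⟩ := p
  · exact res_neg (coin F h hδ).μ (heads F h hδ) (ω, false) (by intro h; exact Bool.noConfusion h)
  · exact res_pos (coin F h hδ).μ (heads F h hδ) (ω, true) rfl

open Classical in
theorem coin_pb (F : FSp) {δ : ℝ} {ν : F.Ω → ℝ} (h : Cdn F δ ν) (hδ : 0 ≤ δ) :
    (coin F h hδ).pb (heads F h hδ) = δ := by
  have h0 : (coin F h hδ).pb (heads F h hδ) = ∑ p : F.Ω × Bool, res (coin F h hδ).μ (heads F h hδ) p := rfl
  rw [h0, res_heads]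
  show (∑ p : F.Ω × Bool, bif p.2 then δ * ν p.1 else 0) = δ
  rw [Fintype.sum_prod_type]
  have h1 : ∀ ω : F.Ω, (∑ b : Bool, bif b then δ * ν ω else 0) = δ * ν ω := by
    intro ω
    rw [Fintype.sum_bool]
    simp
  rw [Finset.sum_congr rfl fun ω' _ => h1 ω', ← Finset.mul_sum]
  have h2 : ∑ ω, ν ω = 1 := h.ms
  rw [h2, mul_one]

open Classical in
/-- given the event the law is `ν` -/
theorem coin_im (F : FSp) {δ : ℝ} {ν : F.Ω → ℝ} (h : Cdn F δ ν) (hδ : 0 < δ) :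
    (FSp.im (coinp F h hδ.le) (heads F h hδ.le)).μ = ν := by
  show push (Prod.fst : F.Ω × Bool → F.Ω) ((coin F h hδ.le).restμ (heads F h hδ.le)) = ν
  have h0 : (coin F h hδ.le).pb (heads F h hδ.le) ≠ 0 := by
    rw [coin_pb]; exact hδ.ne'
  rw [(coin F h hδ.le).restμ_eq _ h0, coin_pb, res_heads]
  funext ω
  show (∑ p : F.Ω × Bool, if p.1 = ω then (δ⁻¹ * (bif p.2 then δ * ν p.1 else 0)) else 0) = ν ω
  rw [Fintype.sum_prod_type]
  have h1 : ∀ ω' : F.Ω, (∑ b : Bool, if ω' = ω then (δ⁻¹ * (bif b then δ * ν ω' else 0)) else 0) =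
      if ω' = ω then ν ω' else 0 := by
    intro ω'
    rw [Fintype.sum_bool]
    by_cases h2 : ω' = ω
    · rw [if_pos h2, if_pos h2, if_pos h2]
      show δ⁻¹ * (δ * ν ω') + δ⁻¹ * 0 = ν ω'
      rw [inv_mul_cancel_left₀ hδ.ne', mul_zero, add_zero]
    · rw [if_neg h2, if_neg h2, if_neg h2, add_zero]
  rw [Finset.sum_congr rfl fun ω' _ => h1 ω', Finset.sum_ite_eq' Finset.univ ω, if_pos (Finset.mem_univ ω)]

/-- the law on an event of an extension has a bounded density -/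
theorem im_cdn {T F : FSp} (p : FPj T F) (E : T.Ω → Prop) {δ : ℝ} (hδ : 0 < δ) (h : δ ≤ T.pb E) :
    Cdn F δ (FSp.im p E).μ := by
  have h0 : T.pb E ≠ 0 := (lt_of_lt_of_le hδ h).ne'
  refine ⟨(FSp.im p E).nn, (FSp.im p E).ms, fun ω => ?_⟩
  show δ * push p.π (T.restμ E) ω ≤ F.μ ω
  rw [← p.law, T.restμ_eq E h0]
  unfold push
  rw [Finset.mul_sum]
  apply Finset.sum_le_sum
  intro ω' _
  by_cases h1 : p.π ω' = ω
  · rw [if_pos h1, if_pos h1]
    have h2 : res T.μ E ω' ≤ T.μ ω' := by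
      by_cases h3 : E ω'
      · rw [res_pos _ E ω' h3]
      · rw [res_neg _ E ω' h3]
        exact T.nn ω'
    have h3 : 0 ≤ res T.μ E ω' := T.res_nonneg E ω'
    have h4 : δ * (T.pb E)⁻¹ ≤ 1 := by
      rw [mul_inv_le_iff₀ (lt_of_lt_of_le hδ h), one_mul]
      exact h
    calc δ * ((T.pb E)⁻¹ * res T.μ E ω') = δ * (T.pb E)⁻¹ * res T.μ E ω' := by ring
      _ ≤ 1 * res T.μ E ω' := mul_le_mul_of_nonneg_right h4 h3
      _ ≤ T.μ ω' := by rw [one_mul]; exact h2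
  · rw [if_neg h1, if_neg h1, mul_zero]

/-- extension of a space by coins -/
def coinS (S : Sp) {δ : ℝ} (hδ : 0 ≤ δ) {ν : ∀ k, (S.F k).Ω → ℝ} (h : ∀ k, Cdn (S.F k) δ (ν k)) : Sp :=
  ⟨fun k => coin (S.F k) (h k) hδ, S.lim⟩

def coinP (S : Sp) {δ : ℝ} (hδ : 0 ≤ δ) {ν : ∀ k, (S.F k).Ω → ℝ} (h : ∀ k, Cdn (S.F k) δ (ν k)) :
    Pj (coinS S hδ h) S where
  π := fun k => (coinp (S.F k) (h k) hδ).π
  law := fun k => (coinp (S.F k) (h k) hδ).law
  hZ := fun k => (coinp (S.F k) (h k) hδ).hZ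
  hn := fun _ => rfl

def coinE (S : Sp) {δ : ℝ} (hδ : 0 ≤ δ) {ν : ∀ k, (S.F k).Ω → ℝ} (h : ∀ k, Cdn (S.F k) δ (ν k)) :
    ∀ k, ((coinS S hδ h).F k).Ω → Prop := fun k => heads (S.F k) (h k) hδ

theorem coinE_pr (S : Sp) {δ : ℝ} (hδ : 0 ≤ δ) {ν : ∀ k, (S.F k).Ω → ℝ} (h : ∀ k, Cdn (S.F k) δ (ν k)) :
    ul ((coinS S hδ h).pr (coinE S hδ h)) = δ := by
  have h1 : (coinS S hδ h).pr (coinE S hδ h) = fun _ => δ := by
    funext k
    exact coin_pb (S.F k) (h k) hδ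
  rw [h1, ul_const]

/-- entropies on an event of an extension -/
theorem h_im {T S : Sp} (p : Pj T S) (E : ∀ k, (T.F k).Ω → Prop) (hE : 0 < ul (T.pr E)) (A B : S.Inf) :
    h (restL E hE (p.map (cl A))) (restL E hE (p.map (cl B))) =
      ul (fun k => CH (FSp.im (p.fp k) (E k)).μ (Quotient.mk (A.1 k)) (Quotient.mk (B.1 k ⊓ (S.F k).Z)) / (S.F k).n) := by
  have h1 : ∀ C : S.Inf, restL E hE (p.map (cl C)) = (imq p E).map (cl (imI p E C)) := fun C => rfl
  rw [h1, h1, Pj.h_map, h_cl]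
  rfl

/-- CRITERION for robust upper bounds -/
theorem rob_le_iff {S : Sp} (A B : S.Inf) (η : ℝ) :
    (∀ (T : Sp) (p : Pj T S) (E : ∀ k, (T.F k).Ω → Prop) (hE : 0 < ul (T.pr E)),
      h (restL E hE (p.map (cl A))) (restL E hE (p.map (cl B))) ≤ η) ↔
    ∀ δ : ℝ, 0 < δ → ∀ ε : ℝ, 0 < ε → ∀ᶠ k in UF, RB (S.F k) δ (η + ε) (A.1 k) (B.1 k) := by
  classical
  constructor
  · intro hh δ hδ ε hε
    by_contra hc
    have h1 := UF_not hc
    have h2 : ∀ k, ∃ ν, Cdn (S.F k) (min δ 1) ν ∧ (¬ RB (S.F k) δ (η + ε) (A.1 k) (B.1 k) →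
        (η + ε) * (S.F k).n < CH ν (Quotient.mk (A.1 k)) (Quotient.mk (B.1 k ⊓ (S.F k).Z))) := by
      intro k
      by_cases h3 : RB (S.F k) δ (η + ε) (A.1 k) (B.1 k)
      · refine ⟨(S.F k).μ, ⟨(S.F k).nn, (S.F k).ms, fun ω => ?_⟩, fun h4 => absurd h3 h4⟩
        have := (S.F k).nn ω
        have h5 : min δ 1 ≤ 1 := min_le_right _ _
        nlinarith
      · unfold RB at h3
        push Not at h3
        obtain ⟨ν, h4, h5⟩ := h3
        refine ⟨ν, ⟨h4.nn, h4.ms, fun ω => ?_⟩, fun _ => h5⟩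
        exact (mul_le_mul_of_nonneg_right (min_le_left _ _) (h4.nn ω)).trans (h4.le ω)
    choose ν hν hν' using h2
    have hm : 0 < min δ 1 := lt_min hδ one_pos
    have hE : 0 < ul ((coinS S hm.le hν).pr (coinE S hm.le hν)) := by
      rw [coinE_pr]; exact hm
    have h3 := hh _ (coinP S hm.le hν) (coinE S hm.le hν) hE
    rw [h_im] at h3
    have h4 : η + ε ≤ ul (fun k => CH (FSp.im ((coinP S hm.le hν).fp k) (coinE S hm.le hν k)).μ
        (Quotient.mk (A.1 k)) (Quotient.mk (B.1 k ⊓ (S.F k).Z)) / (S.F k).n) := by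
      apply const_le_ul
      · exact UB_rt (S := Sp.im (coinP S hm.le hν) (coinE S hm.le hν)) (imI (coinP S hm.le hν) (coinE S hm.le hν) A)
          (imI (coinP S hm.le hν) (coinE S hm.le hν) B).1
      · filter_upwards [h1] with k hk
        have h5 : (FSp.im ((coinP S hm.le hν).fp k) (coinE S hm.le hν k)).μ = ν k := coin_im (S.F k) (hν k) hm
        rw [h5, le_div_iff₀ (S.F k).pos]
        exact (hν' k hk).le
    linarith
  · intro hh T p E hE
    rw [h_im]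
    apply le_of_forall_pos_le_add
    intro ε hε
    apply ul_le_const
    · exact UB_rt (S := Sp.im p E) (imI p E A) (imI p E B).1
    · filter_upwards [hh _ (half_pos hE) ε hε, pr_half' hE] with k hk hk'
      rw [div_le_iff₀ (S.F k).pos]
      exact hk _ (im_cdn (p.fp k) (E k) (half_pos hE) hk')

/-- CRITERION for robust lower bounds -/
theorem rob_ge_iff {S : Sp} (A B : S.Inf) (η : ℝ) :
    (∀ (T : Sp) (p : Pj T S) (E : ∀ k, (T.F k).Ω → Prop) (hE : 0 < ul (T.pr E)),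
      η ≤ h (restL E hE (p.map (cl A))) (restL E hE (p.map (cl B)))) ↔
    ∀ δ : ℝ, 0 < δ → ∀ ε : ℝ, 0 < ε → ∀ᶠ k in UF, RL (S.F k) δ (η - ε) (A.1 k) (B.1 k) := by
  classical
  constructor
  · intro hh δ hδ ε hε
    by_contra hc
    have h1 := UF_not hc
    have h2 : ∀ k, ∃ ν, Cdn (S.F k) (min δ 1) ν ∧ (¬ RL (S.F k) δ (η - ε) (A.1 k) (B.1 k) →
        CH ν (Quotient.mk (A.1 k)) (Quotient.mk (B.1 k ⊓ (S.F k).Z)) < (η - ε) * (S.F k).n) := by
      intro k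
      by_cases h3 : RL (S.F k) δ (η - ε) (A.1 k) (B.1 k)
      · refine ⟨(S.F k).μ, ⟨(S.F k).nn, (S.F k).ms, fun ω => ?_⟩, fun h4 => absurd h3 h4⟩
        have := (S.F k).nn ω
        have h5 : min δ 1 ≤ 1 := min_le_right _ _
        nlinarith
      · unfold RL at h3
        push Not at h3
        obtain ⟨ν, h4, h5⟩ := h3
        refine ⟨ν, ⟨h4.nn, h4.ms, fun ω => ?_⟩, fun _ => h5⟩
        exact (mul_le_mul_of_nonneg_right (min_le_left _ _) (h4.nn ω)).trans (h4.le ω)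
    choose ν hν hν' using h2
    have hm : 0 < min δ 1 := lt_min hδ one_pos
    have hE : 0 < ul ((coinS S hm.le hν).pr (coinE S hm.le hν)) := by
      rw [coinE_pr]; exact hm
    have h3 := hh _ (coinP S hm.le hν) (coinE S hm.le hν) hE
    rw [h_im] at h3
    have h4 : ul (fun k => CH (FSp.im ((coinP S hm.le hν).fp k) (coinE S hm.le hν k)).μ
        (Quotient.mk (A.1 k)) (Quotient.mk (B.1 k ⊓ (S.F k).Z)) / (S.F k).n) ≤ η - ε := by
      apply ul_le_const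
      · exact UB_rt (S := Sp.im (coinP S hm.le hν) (coinE S hm.le hν)) (imI (coinP S hm.le hν) (coinE S hm.le hν) A)
          (imI (coinP S hm.le hν) (coinE S hm.le hν) B).1
      · filter_upwards [h1] with k hk
        have h5 : (FSp.im ((coinP S hm.le hν).fp k) (coinE S hm.le hν k)).μ = ν k := coin_im (S.F k) (hν k) hm
        rw [h5, div_le_iff₀ (S.F k).pos]
        exact (hν' k hk).le
    linarith
  · intro hh T p E hE
    rw [h_im]
    apply le_of_forall_pos_le_add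
    intro ε hε
    rw [← sub_le_iff_le_add]
    apply const_le_ul
    · exact UB_rt (S := Sp.im p E) (imI p E A) (imI p E B).1
    · filter_upwards [hh _ (half_pos hE) ε hε, pr_half' hE] with k hk hk'
      rw [le_div_iff₀ (S.F k).pos]
      exact hk _ (im_cdn (p.fp k) (E k) (half_pos hE) hk')

end

end Pool.Agent.Helper60.CS
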