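import Pool.Agent.Helper60.CS.Cqd

/-! Exact entropy calculus: functions which are small, respectively not small, outside of events of small
probability; independence of the representatives. -/

set_option autoImplicit false

namespace Pool.Agent.Helper60.CS

open Finset Filter Topology Pool.Agent.Helper69.RK Pool.Agent.Helper40.EL Pool.Agent.Helper31.EC
  Pool.Agent.Helper31.EC.Sp

noncomputable section

/-- the constant `2 ^ (-δ n)`, as a tame function -/
def sct (S : Sp) (δ : ℝ) : TR S := ⟨fun k _ => S.dl (max δ 0) k, fun _ => 1, S.Sub_const zero_le_one,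
  Filter.Eventually.of_forall fun k ω _ => by
    rw [abs_of_pos (S.dl_pos _ k), ← S.dl_zero k]
    exact S.dl_anti (le_max_right _ _) k⟩

/-- the constant `2 ^ (-δ n)` -/
def sc (S : Sp) (δ : ℝ) : QS S := QS.mk (sct S δ)

/-- `|f| ≤ 2 ^ (-r' n)` for `r' < r` outside of an event of probability `ε` -/
def Sml {S : Sp} (f : QS S) (r ε : ℝ) : Prop :=
  ∀ r' : ℝ, r' < r → ul (S.pr fun k ω => S.dl r' k < |TR.ev (QS.mk_surj f).choose k ω|) ≤ ε

/-- a function is smaller than `2 ^ (-δ n)`, `δ > ε`, with probability at most `ε` -/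
def Bg {S : Sp} (f : QS S) (ε : ℝ) : Prop :=
  ∀ δ : ℝ, ε < δ → ul (S.pr fun k ω => |TR.ev (QS.mk_surj f).choose k ω| ≤ S.dl δ k) ≤ ε

theorem pb_or_le (F : FSp) (E E' G : F.Ω → Prop) (h : ∀ ω, F.μ ω ≠ 0 → E ω → E' ω ∨ G ω) :
    F.pb E ≤ F.pb E' + F.pb G := by
  have h0 : ∀ E : F.Ω → Prop, F.pb E = ∑ ω, res F.μ E ω := fun _ => rfl
  rw [h0, h0, h0, ← Finset.sum_add_distrib]
  apply Finset.sum_le_sum
  intro ω _
  have n1 : 0 ≤ res F.μ E' ω := F.res_nonneg E' ω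
  have n2 : 0 ≤ res F.μ G ω := F.res_nonneg G ω
  by_cases h1 : E ω
  · rw [res_pos F.μ E ω h1]
    by_cases h2 : F.μ ω = 0
    · rw [h2]
      exact add_nonneg n1 n2
    · rcases h ω h2 h1 with h3 | h3
      · rw [res_pos F.μ E' ω h3]
        linarith
      · rw [res_pos F.μ G ω h3]
        linarith
  · rw [res_neg F.μ E ω h1]
    exact add_nonneg n1 n2

theorem ul_pr_le {S : Sp} {E E' G : ∀ k, (S.F k).Ω → Prop} (hG : Typ G)
    (h : ∀ᶠ k in UF, ∀ ω, (S.F k).μ ω ≠ 0 → G k ω → E k ω → E' k ω) : ul (S.pr E) ≤ ul (S.pr E') := by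
  have h1 : Tendsto (fun k => (S.F k).pb (fun ω => ¬ G k ω)) UF (𝓝 0) := hG
  have h2 : Tendsto (fun k => S.pr E' k + (S.F k).pb (fun ω => ¬ G k ω)) UF (𝓝 (ul (S.pr E') + 0)) :=
    (ul_tendsto (UB_pr E')).add h1
  rw [add_zero] at h2
  refine le_of_tendsto_of_tendsto (ul_tendsto (UB_pr E)) h2 ?_
  filter_upwards [h] with k hk
  apply pb_or_le
  intro ω hω hE
  by_cases h3 : G k ω
  · exact Or.inl (hk ω hω h3 hE)
  · exact Or.inr h3

theorem rep_ag {S : Sp} (f : TR S) : TR.Ag 1 (QS.mk_surj (QS.mk f)).choose f :=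
  QS.mk_eq.mp (QS.mk_surj (QS.mk f)).choose_spec

theorem sml_aux {S : Sp} {f g : TR S} (h : TR.Ag 1 f g) {r r' : ℝ} (h1 : r' < r) (h2 : r ≤ 1) :
    ul (S.pr fun k ω => S.dl r' k < |TR.ev f k ω|) ≤ ul (S.pr fun k ω => S.dl r k < |TR.ev g k ω|) := by
  obtain ⟨E, K, hE, hK, hh⟩ := h
  refine ul_pr_le hE ?_
  have hKs : S.Sub (fun k => 1 + K k) := (S.Sub_const zero_le_one).add hK
  filter_upwards [hh, hKs.eventually_le (show (0 : ℝ) < r - r' by linarith), hK.1] with k h3 h4 h5 ω hω hE hf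
  by_contra hc
  rw [not_lt] at hc
  have h6 := h3 ω hω hE
  have h7 : |TR.ev f k ω| ≤ |TR.ev g k ω| + K k * S.dl 1 k := by
    have := abs_sub_abs_le_abs_sub (TR.ev f k ω) (TR.ev g k ω)
    linarith
  have h8 : S.dl 1 k ≤ S.dl r k := S.dl_anti h2 k
  have h9 : K k * S.dl 1 k ≤ K k * S.dl r k := mul_le_mul_of_nonneg_left h8 h5
  have h10 : (1 + K k) * S.dl r k ≤ S.dl r' k := by
    calc (1 + K k) * S.dl r k ≤ 2 ^ ((r - r') * (S.F k).n) * S.dl r k :=
          mul_le_mul_of_nonneg_right (by linarith) (S.dl_pos r k).le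
      _ = S.dl r' k := by
          unfold Sp.dl
          rw [← Real.rpow_add (by norm_num : (0 : ℝ) < 2)]
          congr 1
          ring
  have h11 : (1 + K k) * S.dl r k = S.dl r k + K k * S.dl r k := by ring
  linarith

theorem sml_mk {S : Sp} {f : TR S} {r ε : ℝ} (hr : r ≤ 1)
    (h : ∀ r' : ℝ, r' < r → ul (S.pr fun k ω => S.dl r' k < |TR.ev f k ω|) ≤ ε) : Sml (QS.mk f) r ε := by
  intro r' hr'
  exact (sml_aux (rep_ag f) (show r' < (r' + r) / 2 by linarith) (by linarith)).trans (h _ (by linarith))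

theorem Sml.of_mk {S : Sp} {f : TR S} {r ε : ℝ} (hr : r ≤ 1) (h : Sml (QS.mk f) r ε) {r' : ℝ} (hr' : r' < r) :
    ul (S.pr fun k ω => S.dl r' k < |TR.ev f k ω|) ≤ ε :=
  (sml_aux (rep_ag f).symm (show r' < (r' + r) / 2 by linarith) (by linarith)).trans (h _ (by linarith))

theorem Sml.mono {S : Sp} {f : QS S} {r ε ε' r' : ℝ} (h : Sml f r ε) (hε : ε ≤ ε') (hr : r' ≤ r) : Sml f r' ε' :=
  fun s hs => (h s (hs.trans_le hr)).trans hε

theorem bg_aux {S : Sp} {f g : TR S} (h : TR.Ag 1 f g) {δ δ' : ℝ} (h1 : δ' < δ) (h2 : δ' < 1) :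
    ul (S.pr fun k ω => |TR.ev f k ω| ≤ S.dl δ k) ≤ ul (S.pr fun k ω => |TR.ev g k ω| ≤ S.dl δ' k) := by
  obtain ⟨E, K, hE, hK, hh⟩ := h
  refine ul_pr_le hE ?_
  have hKs : S.Sub (fun k => 1 + K k) := (S.Sub_const zero_le_one).add hK
  have h0 : 0 < min δ 1 - δ' := by
    rw [sub_pos]
    exact lt_min h1 h2
  filter_upwards [hh, hKs.eventually_le h0, hK.1] with k h3 h4 h5 ω hω hE hf
  have h6 := h3 ω hω hE
  have h7 : |TR.ev g k ω| ≤ |TR.ev f k ω| + K k * S.dl 1 k := by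
    have := abs_sub_abs_le_abs_sub (TR.ev g k ω) (TR.ev f k ω)
    rw [abs_sub_comm] at this
    linarith
  have h8 : S.dl 1 k ≤ S.dl (min δ 1) k := S.dl_anti (min_le_right _ _) k
  have h8' : S.dl δ k ≤ S.dl (min δ 1) k := S.dl_anti (min_le_left _ _) k
  have h9 : K k * S.dl 1 k ≤ K k * S.dl (min δ 1) k := mul_le_mul_of_nonneg_left h8 h5
  have h10 : (1 + K k) * S.dl (min δ 1) k ≤ S.dl δ' k := by
    calc (1 + K k) * S.dl (min δ 1) k ≤ 2 ^ ((min δ 1 - δ') * (S.F k).n) * S.dl (min δ 1) k :=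
          mul_le_mul_of_nonneg_right (by linarith) (S.dl_pos _ k).le
      _ = S.dl δ' k := by
          unfold Sp.dl
          rw [← Real.rpow_add (by norm_num : (0 : ℝ) < 2)]
          congr 1
          ring
  have h11 : (1 + K k) * S.dl (min δ 1) k = S.dl (min δ 1) k + K k * S.dl (min δ 1) k := by ring
  have h12 : |TR.ev f k ω| ≤ S.dl δ k := hf
  show |TR.ev g k ω| ≤ S.dl δ' k
  linarith

theorem ul_pr_le_one {S : Sp} (E : ∀ k, (S.F k).Ω → Prop) : ul (S.pr E) ≤ 1 :=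
  ul_le_const (UB_pr E) (Eventually.of_forall fun k => (S.F k).pb_le_one (E k))

theorem bg_mk {S : Sp} {f : TR S} {ε : ℝ}
    (h : ∀ δ : ℝ, ε < δ → ul (S.pr fun k ω => |TR.ev f k ω| ≤ S.dl δ k) ≤ ε) : Bg (QS.mk f) ε := by
  intro δ hδ
  rcases lt_or_ge ε 1 with h1 | h1
  · have h2 : ε < min δ 1 := lt_min hδ h1
    have h3 : (ε + min δ 1) / 2 < δ := by
      have := min_le_left δ 1
      linarith
    have h4 : (ε + min δ 1) / 2 < 1 := by
      have := min_le_right δ 1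
      linarith
    exact (bg_aux (rep_ag f) h3 h4).trans (h _ (by linarith))
  · exact (ul_pr_le_one _).trans h1

theorem Bg.of_mk {S : Sp} {f : TR S} {ε : ℝ} (h : Bg (QS.mk f) ε) {δ : ℝ} (hδ : ε < δ) :
    ul (S.pr fun k ω => |TR.ev f k ω| ≤ S.dl δ k) ≤ ε := by
  rcases lt_or_ge ε 1 with h1 | h1
  · have h2 : ε < min δ 1 := lt_min hδ h1
    have h3 : (ε + min δ 1) / 2 < δ := by
      have := min_le_left δ 1
      linarith
    have h4 : (ε + min δ 1) / 2 < 1 := by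
      have := min_le_right δ 1
      linarith
    exact (bg_aux (rep_ag f).symm h3 h4).trans (h _ (by linarith))
  · exact (ul_pr_le_one _).trans h1

/-- robust upper bounds on events of probability at least `δ`, as a finite statement -/
theorem rb_of_le {S : Sp} (A B : S.Inf) (η : ℝ) {δ : ℝ} (hδ : 0 < δ) (hδ1 : δ ≤ 1)
    (hh : ∀ (T : Sp) (p : Pj T S) (E : ∀ k, (T.F k).Ω → Prop) (hE : 0 < ul (T.pr E)), δ ≤ ul (T.pr E) →
      h (restL E hE (p.map (cl A))) (restL E hE (p.map (cl B))) ≤ η) {ε : ℝ} (hε : 0 < ε) :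
    ∀ᶠ k in UF, RB (S.F k) δ (η + ε) (A.1 k) (B.1 k) := by
  classical
  by_contra hc
  have h1 := UF_not hc
  have h2 : ∀ k, ∃ ν, Cdn (S.F k) δ ν ∧ (¬ RB (S.F k) δ (η + ε) (A.1 k) (B.1 k) →
      (η + ε) * (S.F k).n < CH ν (Quotient.mk (A.1 k)) (Quotient.mk (B.1 k ⊓ (S.F k).Z))) := by
    intro k
    by_cases h3 : RB (S.F k) δ (η + ε) (A.1 k) (B.1 k)
    · refine ⟨(S.F k).μ, ⟨(S.F k).nn, (S.F k).ms, fun ω => ?_⟩, fun h4 => absurd h3 h4⟩
      have := (S.F k).nn ω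
      nlinarith
    · unfold RB at h3
      push Not at h3
      obtain ⟨ν, h4, h5⟩ := h3
      exact ⟨ν, h4, fun _ => h5⟩
  choose ν hν hν' using h2
  have hE : 0 < ul ((coinS S hδ.le hν).pr (coinE S hδ.le hν)) := by
    rw [coinE_pr]; exact hδ
  have h3 := hh _ (coinP S hδ.le hν) (coinE S hδ.le hν) hE (by rw [coinE_pr])
  rw [h_im] at h3
  have h4 : η + ε ≤ ul (fun k => CH (FSp.im ((coinP S hδ.le hν).fp k) (coinE S hδ.le hν k)).μ
      (Quotient.mk (A.1 k)) (Quotient.mk (B.1 k ⊓ (S.F k).Z)) / (S.F k).n) := by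
    apply const_le_ul
    · exact UB_rt (S := Sp.im (coinP S hδ.le hν) (coinE S hδ.le hν)) (imI (coinP S hδ.le hν) (coinE S hδ.le hν) A)
        (imI (coinP S hδ.le hν) (coinE S hδ.le hν) B).1
    · filter_upwards [h1] with k hk
      have h5 : (FSp.im ((coinP S hδ.le hν).fp k) (coinE S hδ.le hν k)).μ = ν k := coin_im (S.F k) (hν k) hδ
      rw [h5, le_div_iff₀ (S.F k).pos]
      exact (hν' k hk).le
  linarith

end

end Pool.Agent.Helper60.CS
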